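import Pool.Agent.H91.D2.Tlc9
import Pool.Agent.H91.FR.FrA

/-!
# The entropy fields of `TL` at ALL small scales

`TlAt`: the entropy fields of `TL` (`TlO`) hold at the scale `2 ^ (-k)` for all closed frames, charts
and records. `tl_all`: at almost every critical point of a closed set of good windows, `TlAt` holds
for all small scales.
-/

set_option autoImplicit false

namespace Pool.LA91

open Finset Real MvPolynomial
open Pool.Agent.H49.Ent Pool.Agent.H32.Dense Pool.STK Pool.KA Pool.KSAT Pool.K2S Pool.PB Pool.GEN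
open Pool.S6C Pool.RCD Pool.D2R Pool.CHT Pool.D2G30 Pool.V1E
open Pool.PB.Trl (rt rt_mem t_rt)
open Pool.GRD (LbP)

variable {m : ℕ}

/-- The precision of the numbers. -/
noncomputable def epT (d : ℕ) (σ : ℚ) (κ : ℝ) : ℝ := min (σ : ℝ) (κ / (140 * (d + 1)))

/-- The precision of the charts of the frame. -/
noncomputable def slT (d : ℕ) (σ : ℚ) (κ : ℝ) : ℝ := epT d σ κ / (20 * (d + 1))

/-- **The entropy fields of `TL`** at the scale `2 ^ (-k)` near the window `g`. The numbers are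
precise to `epT d σ κ 2 ^ (-k)`, the charts of the frame to the natural digits minus
`slT d σ κ 2 ^ (-k)`. -/
def TlAt (S : PCl m) (c : ℕ → Fin m) (d : ℕ) (sn : ℕ → ℝ → ℝ) (G : Set ℝ) (g : ℝ) (C : ℕ)
    (σ : ℚ) (κ : ℝ) (k : ℕ) : Prop :=
  ∀ (P₁ P₂ : Fin d → ℚ) (b w a o : ℝ),
      StG d sn g C σ k P₁ → StG d sn g C σ k P₂ → b ∈ G →
      g - C * (1 / 2) ^ k ≤ b → b + lagG C d k ≤ w → w ≤ a → a ≤ o →
      o + (1 / 2) ^ k ≤ g + lstG C d k →
      ∃ k₂ : ℝ, 0 < k₂ ∧ ∀ D : ℕ, ∃ C₁ : ℕ, Bas S (fun J F A =>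
        ∀ (s gx : ℕ → ℕ) (e M Q n : ℕ) (qe : Fin d → ℕ) (V V' : Type) (v : F.Ω → V)
          (vL : LnT F → V) (v' : F.Ω → V')
          (G₀ : PtT F → ℕ → MvPolynomial (Option (Fin m)) ℝ)
          (G₁ G₂ : PtT F → MvPolynomial (Option (Fin m)) ℝ)
          (H₀ : LnT F → ℕ → MvPolynomial (Option (Fin m)) ℝ)
          (H₁ H₂ : LnT F → MvPolynomial (Option (Fin m)) ℝ) (δ : ℝ),
        Mx (fun J F => ptr F J) (vg w) k₂ F A v → Mx (fun J F => ptr F J) (vg a) k₂ F A v' →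
        TlM J d C₁ (epT d σ κ * (1 / 2) ^ k * J) (fun i => sn i g - g) (fun i => (P₁ i : ℝ))
          (fun i => (P₂ i : ℝ)) w a o s gx e M Q n qe →
        (∀ i < d, (sn i b - slT d σ κ * (1 / 2) ^ k) * J ≤ gx i) →
        TlI F A c d D e M gx ⌊b * J⌋₊ ⌊w * J⌋₊ ⌊a * J⌋₊ v vL v' G₀ G₁ G₂ H₀ H₁ H₂ →
        TlS F A c s d ⌊w * J⌋₊ Q n qe G₀ δ →
        TlO F (Pool.Agent.H49.Ent.cond F.p A True) c s d ⌊b * J⌋₊ ⌊w * J⌋₊ Q n qe v vL v'
          G₀ G₁ G₂ H₀ H₁ (κ * (1 / 2) ^ k * J))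

/-- **The entropy fields of `TL`** in a class, all small scales. -/
theorem tl_all {S : PCl m} {C₀ : ℝ} (hS : S.Ne)
    (hpos : ∀ (τ : ℝ) (J : ℕ) (F : Fam m J) (A : F.Ω → Prop), S.St τ J F A → 0 < Pe F.p A)
    (htm : TmC S C₀) {c : ℕ → Fin m} {d : ℕ} {sh A B : ℝ} {sn : ℕ → ℝ → ℝ} {G : Set ℝ}
    (hG : IsClosed G) (hW : ChG S c d sn G) (hB : B ≤ 1) {η : ℚ → ℝ}
    (hη : ∀ w : ℚ, A ≤ (w : ℝ) + sh → (w : ℝ) + sh ≤ 1 →
      RNum S (fun J F => ptr F J) (vg ((w : ℝ) + sh)) (η w)) :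
    ∃ S' : PCl m, S'.Ne ∧
      (∀ (τ : ℝ) (J : ℕ) (F : Fam m J) (A : F.Ω → Prop), S'.St τ J F A → S.St τ J F A) ∧
      ∀ᵐ g : ℝ, g ∈ Set.Ioo A B → g ∈ G →
      (∀ i < d, HasDerivWithinAt (fun x => sn i x - x) 0 G g) →
      ∀ (C : ℕ) (σ : ℚ), 0 < σ → σ ≤ 1 → ∀ κ : ℝ, 0 < κ → ∃ K : ℕ, ∀ k ≥ K,
        TlAt S' c d sn G g C σ κ k := by
  classical
  rcases G.eq_empty_or_nonempty with rfl | hne
  · exact ⟨S, hS, fun _ _ _ _ h => h, Filter.Eventually.of_forall fun g _ hg =>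
      absurd hg (Set.notMem_empty g)⟩
  obtain ⟨pG, hp⟩ := nrG_ex hG hne
  obtain ⟨fp, hfp⟩ : ∃ fp : ∀ (J : ℕ) (F : Fam m J), F.Ω → PtT F, fp = fun J F => ptr F J :=
    ⟨_, rfl⟩
  obtain ⟨yW, hyW⟩ : ∃ yW : ∀ (J : ℕ) (F : Fam m J), F.Ω → ℕ × F.ζ, yW = fun _ F => F.W :=
    ⟨_, rfl⟩
  have hf : ∀ (J : ℕ) (F : Fam m J), ∃ φ : PtT F → PtT F, ∀ ω, ptr F J ω = φ (fp J F ω) := by
    intro J F
    rw [hfp]
    exact ⟨fun x => x, fun _ => rfl⟩
  have hy : Kn ((range 0).image c) 1 1 yW := by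
    intro J F
    rw [hyW]
    exact ⟨fun x => (x.1, fun _ => 0, fun _ => 0), fun ω => by simp [Fam.W]⟩
  unfold TlAt
  rw [← hfp] at hη ⊢
  obtain ⟨S', h1, h2, hfree⟩ := free_all hS hpos htm hG hW hf hy hB hη
  have hpos' : ∀ (τ : ℝ) (J : ℕ) (F : Fam m J) (A : F.Ω → Prop), S'.St τ J F A → 0 < Pe F.p A :=
    fun τ J F A h => hpos τ J F A (h2 τ J F A h)
  have hη' : ∀ w : ℚ, A ≤ (w : ℝ) + sh → (w : ℝ) + sh ≤ 1 →
      RNum S' fp (vg ((w : ℝ) + sh)) (η w) :=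
    fun w a b => (hη w a b).sub h2
  have htm' : TmC S' C₀ := fun τ J F A hτ h => htm τ J F A hτ (h2 τ J F A h)
  have hW' : ChG S' c d sn G := hW.sub h2
  refine ⟨S', h1, h2, ?_⟩
  filter_upwards [hfree, ae_infDist G] with g hg hdist hgAB hgG hd C σ hσ0 hσ1 κ hκ
  have hd0 : (0 : ℝ) ≤ d := Nat.cast_nonneg d
  have hd1 : (0 : ℝ) < d + 1 := by positivity
  -- the constants
  have s0 : (0 : ℝ) < σ := by exact_mod_cast hσ0
  obtain ⟨ε, hε⟩ : ∃ ε : ℝ, ε = epT d σ κ := ⟨_, rfl⟩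
  have hε' : ε = min (σ : ℝ) (κ / (140 * (d + 1))) := hε
  have hε0 : 0 < ε := by rw [hε']; positivity
  have hεσ : ε ≤ σ := by rw [hε']; exact min_le_left _ _
  have hεd : ε * (d + 1) ≤ κ / 140 := by
    have h3 : ε ≤ κ / (140 * (d + 1)) := by rw [hε']; exact min_le_right _ _
    have h4 := mul_le_mul_of_nonneg_right h3 hd1.le
    have h5 : κ / (140 * ((d : ℝ) + 1)) * (d + 1) = κ / 140 := by field_simp
    linarith
  obtain ⟨φ, hφ⟩ : ∃ φ : ℝ, φ = ε / (20 * (d + 1)) := ⟨_, rfl⟩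
  have hφ0 : 0 < φ := by rw [hφ]; positivity
  have hφs : φ = slT d σ κ := by rw [hφ, hε]; rfl
  have hφd : φ * (d + 1) = ε / 20 := by
    rw [hφ]
    field_simp
  have hφε : φ ≤ ε / 20 := by
    have : φ * 1 ≤ φ * (d + 1) := mul_le_mul_of_nonneg_left (by linarith) hφ0.le
    linarith
  obtain ⟨φ₁, hφ₁⟩ : ∃ φ₁ : ℝ, φ₁ = min φ (1 / 4) := ⟨_, rfl⟩
  have hφ10 : 0 < φ₁ := by rw [hφ₁]; positivity
  have hφ1φ : φ₁ ≤ φ := by rw [hφ₁]; exact min_le_left _ _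
  have hφ14 : φ₁ ≤ 1 / 4 := by rw [hφ₁]; exact min_le_right _ _
  obtain ⟨Cw, hCw⟩ : ∃ Cw : ℝ, Cw = 2 * C + 7 * d + 13 := ⟨_, rfl⟩
  have hCw0 : 0 < Cw := by rw [hCw]; positivity
  obtain ⟨K₃, hK₃⟩ := flat_kd (f := fun i x => sn i (pG x) - pG x)
    (fun i hi => deriv_p hp (n := fun x => sn i x - x) hgG (hd i hi)) hφ10 hCw0.le
  obtain ⟨K₄, hK₄⟩ := flat_k (hdist hgG) hφ10 hCw0.le
  have hmn : 0 < min ((g - A) / Cw) ((1 - g) / Cw) :=
    lt_min (div_pos (by linarith [hgAB.1]) hCw0) (div_pos (by linarith [hgAB.2]) hCw0)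
  obtain ⟨K₂, hK₂⟩ := exists_pow_lt_of_lt_one hmn (show (1 / 2 : ℝ) < 1 by norm_num)
  obtain ⟨K₁, hK₁⟩ := hg hgAB hgG hd C σ hσ0 hσ1 (κ / 16) (by positivity)
  refine ⟨max K₁ (max K₂ (max K₃ K₄)), fun k hk => ?_⟩
  have hgood := hK₁ k ((le_max_left _ _).trans hk)
  unfold FreeAt at hgood
  have hkK2 : K₂ ≤ k := ((le_max_left _ _).trans (le_max_right _ _)).trans hk
  have hkK3 : K₃ ≤ k :=
    ((le_max_left _ _).trans ((le_max_right _ _).trans (le_max_right _ _))).trans hk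
  have hkK4 : K₄ ≤ k :=
    ((le_max_right _ _).trans ((le_max_right _ _).trans (le_max_right _ _))).trans hk
  have hflat := hK₃ k hkK3
  have hgapk := hK₄ k hkK4
  intro P₁ P₂ b w a o hP₁ hP₂ hb b1 bw wa ao o1
  obtain ⟨r, hr⟩ : ∃ r : ℝ, r = (1 / 2) ^ k := ⟨_, rfl⟩
  have hr0 : 0 < r := by rw [hr]; positivity
  have hlag : lagG C d k = C * r + 7 * (d * r) + 13 * r := by
    unfold lagG
    rw [← hr]
    ring
  have hlst : lstG C d k = 2 * (C * r) + 7 * (d * r) + 12 * r := by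
    unfold lstG
    rw [← hr]
    ring
  -- the last record
  obtain ⟨oq, oq1, oq2⟩ : ∃ x : ℚ, o - sh < x ∧ (x : ℝ) < o - sh + r :=
    exists_rat_btwn (by linarith)
  rw [← hr] at o1 b1
  obtain ⟨m1, hm1, e1, he1, H1⟩ := hgood P₁ b w ((oq : ℝ) + sh) hP₁ hb (by rw [← hr]; exact b1) bw
    (by linarith) (by linarith)
  obtain ⟨m2, hm2, e2, he2, H2⟩ := hgood P₂ b w ((oq : ℝ) + sh) hP₂ hb (by rw [← hr]; exact b1) bw
    (by linarith) (by linarith)
  have hrlt : r < min ((g - A) / Cw) ((1 - g) / Cw) := by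
    rw [hr]
    exact lt_of_le_of_lt (pow_le_pow_of_le_one (by norm_num) (by norm_num) hkK2) hK₂
  have hCA : Cw * r < g - A := by
    have h3 := hrlt.trans_le (min_le_left _ _)
    rw [lt_div_iff₀ hCw0] at h3
    linarith
  have hCB : Cw * r < 1 - g := by
    have h3 := hrlt.trans_le (min_le_right _ _)
    rw [lt_div_iff₀ hCw0] at h3
    linarith
  have hCr : (0 : ℝ) ≤ C * r := by positivity
  have hdr : (0 : ℝ) ≤ d * r := by positivity
  have hCwr : Cw * r = 2 * (C * r) + 7 * (d * r) + 13 * r := by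
    rw [hCw]
    ring
  rw [← hr] at H1 H2 hflat hgapk ⊢
  rw [hlag] at bw
  rw [hlst] at o1
  have hφr1 : φ₁ * r ≤ φ * r := mul_le_mul_of_nonneg_right hφ1φ hr0.le
  have hφr4 : φ₁ * r ≤ 1 / 4 * r := mul_le_mul_of_nonneg_right hφ14 hr0.le
  have hφr10 : 0 < φ₁ * r := mul_pos hφ10 hr0
  -- the gaps
  have hgap : ∀ v : ℝ, |v - g| ≤ Cw * r → |v - pG v| ≤ φ₁ * r := by
    intro v hv
    have h3 := hgapk v hv
    rw [Metric.infDist_zero_of_mem hgG, sub_zero, ← hp.dst v, abs_abs] at h3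
    exact h3
  -- flatness
  have hfl : ∀ i < d, ∀ v ∈ G, |v - g| ≤ Cw * r → |(sn i v - v) - (sn i g - g)| ≤ φ₁ * r := by
    intro i hi v hv h3
    have h4 := hflat i hi v h3
    rw [hp.of_mem hv, hp.of_mem hgG] at h4
    exact h4
  have hin : ∀ v : ℝ, b - r ≤ v → v ≤ o + r → |v - g| ≤ Cw * r := by
    intro v c1 c2
    rw [abs_le]
    constructor <;> linarith
  -- the heights at a record
  have hφr0 : 0 ≤ φ * r := by positivity
  have hts : ∀ x : ℝ, b + r ≤ x → x ≤ o →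
      Few0 S' fp (vg x) yW (Qt.pi fun i : Fin d => qJet m
        ((range (i : ℕ)).image c) (c i) 0 b (sn i b - φ * r)
        ((sn i g - g) + x - 3 * (φ₁ * r) -
          ((i : ℕ) + 1) * (2 * (2 * (φ₁ * r)) + 2 * (φ₁ * r) + φ₁ * r + φ * r))) := by
    intro x hx1 hx2
    refine few_tQt hpos' (few_pi hpos' fun i => Few0.few hpos' ?_)
    have h3 := abs_le.1 (hgap (x - φ₁ * r) (hin _ (by linarith) (by linarith)))
    have hx' : |pG (x - φ₁ * r) - g| ≤ Cw * r := hin _ (by linarith) (by linarith)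
    have h4 := abs_le.1 (hfl i i.2 _ (hp.mem (x - φ₁ * r)) hx')
    refine hts0S htm' hpos' hW' hf hy (o := pG (x - φ₁ * r)) (φ := 2 * (φ₁ * r))
      (ρ₀ := φ₁ * r) (ρ' := φ * r) (κ := φ₁ * r) hb (hp.mem _) (by linarith) (by linarith)
      (by linarith) (by positivity) hφr10.le hφr0 hφr10
      (fun v c1 c2 => ⟨pG v, hp.mem v, by
        rw [abs_sub_comm]
        exact hgap v (hin v (by linarith) (by linarith))⟩)
      (fun l hl v hv c1 c2 => ?_) i.2 le_rfl (by linarith) (by linarith)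
    have e3 := abs_le.1 (hfl l hl v hv (hin v (by linarith) (by linarith)))
    have e4 := abs_le.1 (hfl l hl _ (hp.mem (x - φ₁ * r)) hx')
    rw [abs_le]
    constructor <;> linarith [e3.1, e3.2, e4.1, e4.2]
  obtain ⟨Nh, hNh⟩ : ∃ Nh : ℝ → Fin d → ℝ, Nh = fun x (i : Fin d) => (sn i g - g) + x - 3 * (φ₁ * r) -
      ((i : ℕ) + 1) * (2 * (2 * (φ₁ * r)) + 2 * (φ₁ * r) + φ₁ * r + φ * r) := ⟨_, rfl⟩
  have hts' : ∀ x : ℝ, b + r ≤ x → x ≤ o → Few0 S' fp (vg x) yW (Qt.pi fun i : Fin d => qJet m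
      ((range (i : ℕ)).image c) (c i) 0 b (sn i b - φ * r) (Nh x i)) := by
    rw [hNh]
    exact hts
  have ho' : ∀ (J : ℕ) (F : Fam m J), ∃ φ : LnT F → LnT F, ∀ ω,
      vg o J F ω = φ (vg ((oq : ℝ) + sh) J F ω) :=
    fun J F => vg_mono (by linarith) (by linarith) J F
  have ho3 : Few0 S' fp (vg ((oq : ℝ) + sh)) yW (Qt.pi fun i : Fin d => qJet m
      ((range (i : ℕ)).image c) (c i) 0 b (sn i b - φ * r) (Nh o i)) :=
    few_tQt hpos' (Few.up (f' := fp) (y' := yW) hpos' (fun J F => ⟨fun x => x, fun _ => rfl⟩) ho'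
      (fun J F => ⟨fun x => x, fun _ => rfl⟩) (Few0.few hpos' (hts' o (by linarith) le_rfl)))
  obtain ⟨e3, he3, H3⟩ := ho3.mx hpos' (κ / 8 * r) (by positivity)
  obtain ⟨e4, he4, H4⟩ := (hts' a (by linarith) (by linarith)).mx hpos' (κ / 8 * r)
    (by positivity)
  obtain ⟨k₂, hk₂, l1, l2, l3⟩ : ∃ k₂ : ℝ, 0 < k₂ ∧ k₂ ≤ m1 ∧ k₂ ≤ m2 ∧ k₂ ≤ κ / 8 * r / 2 :=
    ⟨min m1 (min m2 (κ / 8 * r / 2)), by positivity, min_le_left _ _,
      (min_le_right _ _).trans (min_le_left _ _), (min_le_right _ _).trans (min_le_right _ _)⟩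
  refine ⟨k₂, hk₂, fun D => ?_⟩
  obtain ⟨C₁, hlaw⟩ := tlo_law D d
  refine ⟨C₁, ?_⟩
  -- the complexity
  obtain ⟨Kp, hKD, hK1, hK2, hK3, hK4⟩ : ∃ Kp : ℕ, D ≤ Kp ∧ (∀ i : Fin d, |(P₁ i : ℝ)| + 3 ≤ Kp) ∧
      (∀ i : Fin d, |(P₂ i : ℝ)| + 3 ≤ Kp) ∧
      (∀ i : Fin d, |Nh o i| + 3 ≤ Kp) ∧ (∀ i : Fin d, |Nh a i| + 3 ≤ Kp) := by
    obtain ⟨Kp, hKp⟩ := exists_nat_ge ((D : ℝ) + ∑ i : Fin d, (|(P₁ i : ℝ)| + 3) +
      ∑ i : Fin d, (|(P₂ i : ℝ)| + 3) + ∑ i : Fin d, (|Nh o i| + 3) +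
      ∑ i : Fin d, (|Nh a i| + 3))
    have s0 : ∀ f : Fin d → ℝ, (0 : ℝ) ≤ ∑ i : Fin d, (|f i| + 3) := fun f =>
      Finset.sum_nonneg fun i _ => by positivity
    have s1 : ∀ (f : Fin d → ℝ) (i : Fin d), |f i| + 3 ≤ ∑ i : Fin d, (|f i| + 3) := fun f i =>
      Finset.single_le_sum (f := fun i => |f i| + 3) (fun i _ => by positivity)
        (Finset.mem_univ i)
    have a1 := s0 (fun i => (P₁ i : ℝ))
    have a2 := s0 (fun i => (P₂ i : ℝ))
    have a3 := s0 (Nh o)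
    have a4 := s0 (Nh a)
    have hD0 : (0 : ℝ) ≤ D := Nat.cast_nonneg D
    refine ⟨Kp, ?_, fun i => ?_, fun i => ?_, fun i => ?_, fun i => ?_⟩
    · have : (D : ℝ) ≤ Kp := by linarith
      exact_mod_cast this
    · have := s1 (fun i => (P₁ i : ℝ)) i
      linarith
    · have := s1 (fun i => (P₂ i : ℝ)) i
      linarith
    · have := s1 (Nh o) i
      linarith
    · have := s1 (Nh a) i
      linarith
  -- the fullness
  obtain ⟨a', ha'⟩ : ∃ a' : ℝ, a' = pG (a + φ₁ * r) := ⟨_, rfl⟩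
  have ha'G : a' ∈ G := by rw [ha']; exact hp.mem _
  have ha'1 : |a + φ₁ * r - a'| ≤ φ₁ * r := by
    rw [ha']
    exact hgap _ (hin _ (by linarith) (by linarith))
  rw [abs_le] at ha'1
  have ha'in : |a' - g| ≤ Cw * r := hin _ (by linarith) (by linarith)
  obtain ⟨u₁, rd, hrd, hch⟩ := hW'.ch a' ha'G
  have hfulc := hch.ful (φ * r) (by positivity)
  have htmc := tm_cls htm' (show 0 < κ / 8 * r by positivity)
  have hmx := mx_ex hpos' (hη' oq (by linarith) (by linarith)) k₂ hk₂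
  obtain ⟨J₁, hJ₁⟩ := exists_nat_ge (24 * d / (κ / 4 * r))
  refine Bas.mono (max 1 J₁) ((((H1 Kp).and (H2 Kp)).and ((H3 Kp).and (H4 Kp))).and
    ((hfulc.and htmc).and (hmx.and (pos_bas hpos')))) ?_
  rintro J hJ F A' ⟨⟨⟨H1, H2⟩, H3, H4⟩, ⟨H5, H6⟩, ⟨V₂, z2, hz2⟩, hA⟩ s gx e M Q n qe V V' v vL v'
    G₀ G₁ G₂ H₀ H₁' H₂' δ hv hv' N hgx' I hS'
  have hcl := isLaw_cond F.isLaw hA
  have hJ1 : 1 ≤ J := (le_max_left _ _).trans hJ
  have hJR : (J₁ : ℝ) ≤ J := by exact_mod_cast (le_max_right _ _).trans hJ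
  have hJ0 : (0 : ℝ) ≤ J := Nat.cast_nonneg J
  -- the closed part of the record
  have hcv : Cl2 (ptr F J) (vg w J F) A' v := by
    have := hv.1
    rw [hfp] at this
    exact this
  have hcv' : Cl2 (ptr F J) (vg a J F) A' v' := by
    have := hv'.1
    rw [hfp] at this
    exact this
  have hzo : Cl2 (ptr F J) (vg ((oq : ℝ) + sh) J F) A' (zcF F d v v' G₀ G₁ G₂) :=
    zc_cl2 I rfl rfl rfl (by linarith) wa (by linarith) (by linarith) hcv hcv'
  have hza : Cl2 (ptr F J) (vg a' J F) A' (zcF F d v v' G₀ G₁ G₂) :=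
    zc_cl2 I rfl rfl rfl (by linarith) wa (by linarith) (by linarith) hcv hcv'
  obtain ⟨⟨za, hza1⟩, zb, hzb⟩ := hza
  have hj0 : ∀ ω, A' ω → ∀ i < d, |ojet F (c i) 0 (G₀ (ptr F J ω) i) ω| ≤ 2 ^ J := by
    intro ω hω i hi
    rw [ojet_zero]
    refine (I.ch.pos ω hω i hi).trans ?_
    have h3 : (1 : ℝ) ≤ 2 ^ gx i := one_le_pow₀ (by norm_num)
    have h4 : (1 : ℝ) ≤ 2 ^ J := one_le_pow₀ (by norm_num)
    rw [div_le_iff₀ (by positivity)]
    nlinarith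
  rw [← hφs] at hgx'
  rw [← hε] at N
  have hgx : ∀ e', 0 ≤ e' → ∀ i < d, ((sn i b - φ * r) - e') * J ≤ gx i := by
    intro e' he' i hi
    refine le_trans (mul_le_mul_of_nonneg_right (by linarith) hJ0) (hgx' i hi)
  have hgxσ : ∀ e', 0 ≤ e' → ∀ i < d, ((sn i b - (σ : ℝ) / 20 * r) - e') * J ≤ gx i := by
    intro e' he' i hi
    refine le_trans (mul_le_mul_of_nonneg_right ?_ hJ0) (hgx' i hi)
    have h3 : φ * r ≤ (σ : ℝ) / 20 * r := mul_le_mul_of_nonneg_right (by linarith) hr0.le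
    linarith
  -- the quantities
  have U1 := pi_jet I.ch I.cl0 (b := b) (e₀ := e1) (sn := fun i => sn i b - (σ : ℝ) / 20 * r)
    (K := Kp) (j := 1) (N := fun i => (P₁ i : ℝ)) hJ1 rfl (hgxσ e1 he1.le) hS'.jet hKD hK1
  have U2 := pi_jet I.ch I.cl0 (b := b) (e₀ := e2) (sn := fun i => sn i b - (σ : ℝ) / 20 * r)
    (K := Kp) (j := 1) (N := fun i => (P₂ i : ℝ)) hJ1 rfl (hgxσ e2 he2.le) hS'.jet hKD hK2
  have U3 := pi_jet I.ch I.cl0 (b := b) (e₀ := e3) (sn := fun i => sn i b - φ * r) (K := Kp)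
    (j := 0) (N := Nh o) hJ1 rfl (hgx e3 he3.le) hj0 hKD hK3
  have U4 := pi_jet I.ch I.cl0 (b := b) (e₀ := e4) (sn := fun i => sn i b - φ * r) (K := Kp)
    (j := 0) (N := Nh a) hJ1 rfl (hgx e4 he4.le) hj0 hKD hK4
  have R3 := H3 V₂ z2 (hz2.mono l3) _ U3
  have R4 := H4 V' v' (hv'.mono l3) _ U4
  have R1 := H1 V v V₂ z2 (hv.mono l1) (hz2.mono l1) _ U1
  have R2 := H2 V v V₂ z2 (hv.mono l2) (hz2.mono l2) _ U2
  have hvz : CH (Pool.Agent.H49.Ent.cond F.p A' True) v z2 ≤ k₂ * J := by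
    obtain ⟨ψ, hψ⟩ := vg_mono (show w ≤ (oq : ℝ) + sh by linarith) (by linarith) J F
    exact hz2.2 _ v (hv.1.mono ⟨fun x => x, fun _ _ => rfl⟩ ⟨ψ, fun ω _ => hψ ω⟩)
  have det2 : Det (Pool.Agent.H49.Ent.cond F.p A' True) (fun ω => ((v ω, z2 ω), yW J F ω)) z2 :=
    fun ω ω' _ _ hh => by
      simp only [Prod.mk.injEq] at hh
      exact hh.1.2
  have det0 : Det (Pool.Agent.H49.Ent.cond F.p A' True) (fun ω => ((v ω, z2 ω), yW J F ω))
      (fun _ => ()) := fun _ _ _ _ _ => rfl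
  have R1' := free_det hcl.nonneg _ v z2 (yW J F) R1 hvz z2 (fun _ => ()) det2 det0
  have R2' := free_det hcl.nonneg _ v z2 (yW J F) R2 hvz z2 (fun _ => ()) det2 det0
  rw [hyW] at R1' R2' R3 R4
  have strip : ∀ {T : Type} (W : F.Ω → T),
      CH (Pool.Agent.H49.Ent.cond F.p A' True) z2 (fun ω => ((), W ω)) =
      CH (Pool.Agent.H49.Ent.cond F.p A' True) z2 W := fun W =>
    CH_congr hcl.nonneg (fun _ _ _ _ h => (Prod.ext_iff.mp h).1)
      (fun _ _ _ _ h => (Prod.ext_iff.mp h).1) (fun _ _ _ _ h => (Prod.ext_iff.mp h).2)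
      (fun _ _ _ _ h => Prod.ext rfl h)
  have strip2 : ∀ {T T' : Type} (U : F.Ω → T') (W : F.Ω → T),
      CH (Pool.Agent.H49.Ent.cond F.p A' True) z2 (fun ω => (U ω, ((), W ω))) =
      CH (Pool.Agent.H49.Ent.cond F.p A' True) z2 (fun ω => (U ω, W ω)) := fun U W =>
    CH_congr hcl.nonneg (fun _ _ _ _ h => (Prod.ext_iff.mp h).1)
      (fun _ _ _ _ h => (Prod.ext_iff.mp h).1) (fun _ _ _ _ h => by
        simp only [Prod.mk.injEq] at h ⊢
        exact ⟨h.1, h.2.2⟩)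
      (fun _ _ _ _ h => by
        simp only [Prod.mk.injEq] at h ⊢
        exact ⟨h.1, trivial, h.2⟩)
  rw [strip, strip2] at R1' R2'
  have hke : κ / 16 * r * J + k₂ * J ≤ κ / 8 * r * J := by
    have := mul_le_mul_of_nonneg_right l3 hJ0
    linarith
  -- the fullness
  have R5 : ∀ i < d, (((1 - ((sn i g - g) + a)) - 4 * (φ * r)) * Real.log 2 * J) ≤
      CH (Pool.Agent.H49.Ent.cond F.p A' True)
      (fun ω => F.X J ω (c i)) (fun ω => ((fun l : Fin i => F.X J ω (c l)),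
        (zcF F d v v' G₀ G₁ G₂ ω, F.W ω))) := by
    intro i hi
    have h3 := H5 _ za zb (fun ω hω => by
      rw [← hza1 ω hω, hzb ω hω]
      rfl) i (Nat.zero_le _) hi
    have h6 := abs_le.1 (hfl i hi a' ha'G ha'in)
    have h7 : 0 ≤ Real.log 2 * J := mul_nonneg (Real.log_nonneg one_le_two) hJ0
    have h8 : ((1 - ((sn i g - g) + a)) - 4 * (φ * r)) * (Real.log 2 * J) ≤
        ((1 - sn i a') - φ * r) * (Real.log 2 * J) :=
      mul_le_mul_of_nonneg_right (by linarith [h6.2]) h7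
    refine le_trans (le_of_eq_of_le (by ring) h8) (le_trans (le_of_eq (by ring)) (h3.trans
      (le_of_eq ?_)))
    refine CH_congr hcl.nonneg (fun _ _ _ _ h => (Prod.ext_iff.mp h).1)
      (fun _ _ _ _ h => (Prod.ext_iff.mp h).1) ?_ ?_
    · intro ω ω' hω hω' hh
      have h4 := hzb ω (of_cond_pos hω)
      have h5 := hzb ω' (of_cond_pos hω')
      unfold vg at h4 h5
      simp only [Prod.mk.injEq] at hh ⊢
      rw [h4, h5]
      exact hh
    · intro ω ω' hω hω' hh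
      have h4 := hzb ω (of_cond_pos hω)
      have h5 := hzb ω' (of_cond_pos hω')
      unfold vg at h4 h5
      simp only [Prod.mk.injEq] at hh ⊢
      rw [h4, h5] at hh
      exact hh
  have hφr : φ * r ≤ ε / 20 * r := mul_le_mul_of_nonneg_right hφε hr0.le
  have hεr : 0 < ε * r := by positivity
  have hφr00 : 0 < φ * r := by positivity
  have hdig : ∀ i : Fin d, 3 * (φ₁ * r) + ((i : ℕ) + 1 : ℝ) *
      (2 * (2 * (φ₁ * r)) + 2 * (φ₁ * r) + φ₁ * r + φ * r) ≤ ε * r := by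
    intro i
    have h3 : ((i : ℕ) : ℝ) + 1 ≤ d + 1 := by
      have : ((i : ℕ) : ℝ) ≤ d := by exact_mod_cast i.2.le
      linarith
    have h4 := mul_le_mul_of_nonneg_right h3 hφr10.le
    have h4' := mul_le_mul_of_nonneg_right h3 hφr00.le
    have h5 : (d + 1 : ℝ) * (φ * r) = ε / 20 * r := by
      rw [← mul_assoc, mul_comm (d + 1 : ℝ) φ, hφd]
    have h6 := mul_le_mul_of_nonneg_left hφr1 (show (0 : ℝ) ≤ d + 1 by positivity)
    linarith
  obtain ⟨E, hE⟩ : ∃ E : ℝ, E = ∑ i ∈ range d, |(sn i g - g) + b| := ⟨_, rfl⟩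
  have hNN : TlN J d C₁ (ε * r * J) E 0 (fun i x => (sn i g - g) + x) (fun i => (P₁ i : ℝ))
      (fun i => (P₂ i : ℝ)) b w a o s gx e M Q n qe := by
    refine ⟨N.hs, N.hQ, N.hn, ?_, N.hQe, ?_, ?_, fun i hi => ?_, N.hM, N.hJ, N.hN⟩
    · simp only [add_zero]
      exact N.hqe
    · simp only [add_zero]
      exact N.hP
    · simp only [add_zero]
      exact N.hPe
    · have h3 : |(sn i g - g) + b| ≤ E := by
        rw [hE]
        exact Finset.single_le_sum (f := fun i => |(sn i g - g) + b|)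
          (fun i _ => abs_nonneg _) (Finset.mem_range.2 hi)
      have h4 : ((sn i g - g) + b - E) * J ≤ 0 :=
        mul_nonpos_of_nonpos_of_nonneg (by linarith [le_abs_self ((sn i g - g) + b)]) hJ0
      exact h4.trans (Nat.cast_nonneg _)
  have hI : TlI F A' c d D e M gx ⌊(b + 0) * J⌋₊ ⌊(w + 0) * J⌋₊ ⌊(a + 0) * J⌋₊ v vL v'
      G₀ G₁ G₂ H₀ H₁' H₂' := by
    simp only [add_zero]
    exact I
  have hSS : TlS F A' c s d ⌊(w + 0) * J⌋₊ Q n qe G₀ δ := by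
    simp only [add_zero]
    exact hS'
  have hb0 : 0 ≤ b := by
    obtain ⟨_, _, _, hchb⟩ := hW'.ch b hb
    exact hchb.w0
  have hfin := hlaw (κ := κ / 8 * r) (ε := ε * r) (φ := 4 * (φ * r)) (δ := δ) (sh := 0)
    (sn := fun i x => (sn i g - g) + x)
    (P₁ := fun i => (P₁ i : ℝ)) (P₂ := fun i => (P₂ i : ℝ)) (z2 := z2)
    (No := Nh o) (Na := Nh a)
    hA hch.inj (by linarith) (by linarith) (by linarith) (by positivity) hεr (by linarith)
    (fun i hi => by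
      simp only [add_sub_cancel_right, sub_self, abs_zero]
      positivity)
    (fun i hi => by
      simp only [add_sub_cancel_right, sub_self, abs_zero]
      positivity)
    (fun i => by
      rw [hNh]
      simp only
      linarith [hdig i]) (fun i => by
      rw [hNh]
      simp only
      linarith [hdig i]) hNN hI hSS R5
    H6 (by linarith) (by linarith) R3 (by
      refine (hz2.2 _ _ (by rw [hfp]; exact hzo)).trans ?_
      exact mul_le_mul_of_nonneg_right (by linarith [show 0 < κ / 8 * r by positivity]) hJ0) R4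
  simp only [add_zero] at hfin
  -- the errors
  have hle : 4 * (κ / 8 * r) * J + 6 * (d * (5 * (ε * r) * J + 4)) + d * (5 * (ε * r) * J) ≤
      κ * r * J := by
    have h3 : 24 * d ≤ κ / 4 * r * J := by
      have h4 := hJ₁.trans hJR
      rw [div_le_iff₀ (by positivity)] at h4
      linarith
    have h5 : (d : ℝ) * (ε * r * J) ≤ κ / 140 * r * J := by
      have h6 : ε * d ≤ κ / 140 := by
        have : ε * (d : ℝ) ≤ ε * (d + 1) := mul_le_mul_of_nonneg_left (by linarith) hε0.le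
        linarith
      have h7 := mul_le_mul_of_nonneg_right (mul_le_mul_of_nonneg_right h6 hr0.le) hJ0
      linarith
    have h8 : 0 ≤ κ * r * J := by positivity
    linarith
  exact ⟨by linarith [hfin.Tfull], by linarith [hfin.afew], by linarith [hfin.fr],
    by linarith [hfin.frT], by linarith [hfin.full]⟩

end Pool.LA91
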