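import Pool.Agent.H91.D2.Tlc2
import Pool.Agent.H2.GEN.AttF
import Pool.Agent.H23.D2.Path

/-!
# The entropy fields of `TL`: the count of the position

`lip_pt`: the charts at points which are near the own point. `CH_finch`: the chain rule for finitely
many coordinates. `pos_full`: the own position over closed charts is full given a record, if the
coordinates are full given it.
-/

set_option autoImplicit false

namespace Pool.LA91

open Finset Real MvPolynomial
open Pool.Agent.H49.Ent Pool.Agent.H32.Dense Pool.STK Pool.KA Pool.KSAT Pool.K2S Pool.PB Pool.GEN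
open Pool.S6C Pool.RCD Pool.D2R Pool.CHT

variable {m J : ℕ}

/-- The derivative in a spatial direction. -/
theorem dd_sp {c : ℕ → Fin m} {r : ℕ} (hc : Set.InjOn c (Set.Iio r))
    {Q : MvPolynomial (Option (Fin m)) ℝ} (hQ : DepC c r Q) (x : Option (Fin m) → ℝ)
    {V : Option (Fin m) → ℝ} (hV : V none = 0) :
    dd Q x V = ∑ l ∈ range r, eval x (pderiv (some (c l)) Q) * V (some (c l)) := by
  classical
  unfold dd
  rw [Fintype.sum_option, hV, mul_zero, zero_add]
  have hinj : Set.InjOn c (range r : Set ℕ) := fun a ha b hb h =>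
    hc (by simpa using ha) (by simpa using hb) h
  rw [← Finset.sum_image (s := range r) (g := c) (f := fun k => eval x (pderiv (some k) Q) *
    V (some k)) hinj]
  symm
  refine Finset.sum_subset (Finset.subset_univ _) fun k _ hk => ?_
  rw [pd_zero hQ (fun l hl h => hk ?_) x, zero_mul]
  rw [Finset.mem_image]
  exact ⟨l, Finset.mem_range.2 hl, h⟩

theorem tdeg_pd {σ : Type} (P : MvPolynomial σ ℝ) (i : σ) :
    (pderiv i P).totalDegree ≤ P.totalDegree := by
  classical
  rw [P.as_sum, map_sum]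
  refine (totalDegree_finsetSum _ _).trans ?_
  rw [← P.as_sum]
  refine Finset.sup_le fun s hs => ?_
  rw [pderiv_monomial]
  refine (totalDegree_monomial_le _ _).trans ?_
  refine le_trans ?_ (le_totalDegree hs)
  have h1 : (s - Finsupp.single i 1) ≤ s := tsub_le_self
  exact Finsupp.sum_le_sum_index h1 (fun j _ => monotone_id) (fun j _ => rfl)

/-- **The charts at points near the own point.** -/
theorem lip_pt (D n : ℕ) : ∃ C : ℕ, 1 ≤ C ∧ ∀ {m J : ℕ} {F : Fam m J} {c : ℕ → Fin m}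
    {a w e M : ℕ} {g : ℕ → ℕ} {A : F.Ω → Prop}
    {G : PtT F → ℕ → MvPolynomial (Option (Fin m)) ℝ}
    {H : LnT F → ℕ → MvPolynomial (Option (Fin m)) ℝ}, Set.InjOn c (Set.Iio n) →
    ChOK F c n (fun _ => D) a w e g A G H → (∀ l < n, g l ≤ M) → e + M + C ≤ J →
    ∀ ω, A ω → ∀ δ : Option (Fin m) → ℝ, δ none = 0 → (∀ l < n, |δ (some (c l))| ≤ 1 / 2 ^ J) →
    ∀ i < n, ∀ u ∈ Set.Icc (0 : ℝ) 1,
      |eval (fun o => bt F ω o + u * δ o) (G (ptr F J ω) i) - eval (bt F ω) (G (ptr F J ω) i)| ≤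
        2 ^ (C + e + M) / 2 ^ J / 2 ^ g i := by
  obtain ⟨c₀, D₁, -, hdil⟩ := nbx_dil n (fun _ => D)
  refine ⟨c₀ + D₁ + n + 2, by omega, ?_⟩
  obtain ⟨C, hC⟩ : ∃ C : ℕ, C = c₀ + D₁ + n := ⟨_, rfl⟩
  intro m J F c a w e M g A G H hc hch hM hJ ω hω δ hδ0 hδ i hi u hu
  have hJ1 : (2 : ℝ) ^ (C + e + M) / 2 ^ J ≤ 1 / 4 := by
    rw [div_le_div_iff₀ (by positivity) (by positivity), one_mul]
    have : (4 : ℝ) = 2 ^ 2 := by norm_num
    rw [this, ← pow_add]
    exact pow_le_pow_right₀ (by norm_num) (by omega)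
  suffices hmain : ∀ i < n, ∀ u ∈ Set.Icc (0 : ℝ) 1,
      |eval (fun o => bt F ω o + u * δ o) (G (ptr F J ω) i) - eval (bt F ω) (G (ptr F J ω) i)| ≤
        2 ^ (C + e + M) / 2 ^ J / 2 ^ g i by
    refine (hmain i hi u hu).trans (div_le_div_of_nonneg_right (div_le_div_of_nonneg_right
      (pow_le_pow_right₀ (by norm_num) (by omega)) (by positivity)) (by positivity))
  clear hi hu u
  clear i
  intro i
  induction i using Nat.strong_induction_on with
  | _ i ih =>
  intro hi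
  have hci : Set.InjOn c (Set.Iio i) := hc.mono fun x hx => Set.mem_Iio.2 (by
    have := Set.mem_Iio.1 hx
    omega)
  refine mv_seg _ _ _ fun u hu => ?_
  obtain ⟨b, hb⟩ : ∃ b : Option (Fin m) → ℝ, b = fun o => bt F ω o + u * δ o := ⟨_, rfl⟩
  rw [← hb]
  have hbn : b none = F.t ω := by
    rw [hb]
    simp only [hδ0, mul_zero, add_zero]
    rfl
  have hbx : ∀ l < i, |b (some (c l)) - eval b (G (ptr F J ω) l)| ≤ 2 ^ 1 / 2 ^ g l := by
    intro l hl
    have h1 := ih l hl (by omega) u hu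
    rw [← hb] at h1
    have h2 := hch.pos ω hω l (by omega)
    have h3 := hδ l (by omega)
    have h4 : (1 : ℝ) / 2 ^ J ≤ 1 / 4 / 2 ^ g l := by
      rw [div_div, div_le_div_iff₀ (by positivity) (by positivity), one_mul, one_mul]
      have : (4 : ℝ) = 2 ^ 2 := by norm_num
      rw [this, ← pow_add]
      refine pow_le_pow_right₀ (by norm_num) ?_
      have := hM l (by omega)
      omega
    have h5 : (2 : ℝ) ^ (C + e + M) / 2 ^ J / 2 ^ g l ≤ 1 / 4 / 2 ^ g l :=
      div_le_div_of_nonneg_right hJ1 (by positivity)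
    have h6 : b (some (c l)) = F.x ω (c l) + u * δ (some (c l)) := by rw [hb]; rfl
    have h7 : |u * δ (some (c l))| ≤ 1 / 2 ^ J := by
      rw [abs_mul, abs_of_nonneg hu.1]
      calc u * |δ (some (c l))| ≤ 1 * (1 / 2 ^ J) := mul_le_mul hu.2 h3 (abs_nonneg _)
            zero_le_one
        _ = 1 / 2 ^ J := one_mul _
    have h8 : b (some (c l)) - eval b (G (ptr F J ω) l) = (F.x ω (c l) -
        eval (bt F ω) (G (ptr F J ω) l)) + u * δ (some (c l)) -
        (eval b (G (ptr F J ω) l) - eval (bt F ω) (G (ptr F J ω) l)) := by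
      rw [h6]
      ring
    rw [h8]
    refine (abs_sub _ _).trans ?_
    have h9 := abs_add_le (F.x ω (c l) - eval (bt F ω) (G (ptr F J ω) l)) (u * δ (some (c l)))
    have h10 : (2 : ℝ) ^ 1 / 2 ^ g l = 1 / 2 ^ g l + 1 / 4 / 2 ^ g l + 3 / 4 / 2 ^ g l := by ring
    have h11 : (1 : ℝ) / 4 / 2 ^ g l ≤ 3 / 4 / 2 ^ g l :=
      div_le_div_of_nonneg_right (by norm_num) (by positivity)
    rw [h10]
    linarith
  have hder : ∀ j < i, |eval b (pderiv (some (c j)) (G (ptr F J ω) i))| ≤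
      2 ^ (c₀ + D₁ + e + M) / 2 ^ g i := by
    intro j hj
    have h1 := hdil (i := i) (G := G (ptr F J ω)) (Q := pderiv (some (c j)) (G (ptr F J ω) i))
      (g := g) (a := a) (t := F.t ω) (M := 2 ^ (e + nlp g j i)) 1 hi hci
      (fun l => hch.degG _ l) (fun l => hch.depG _ l) (depC_pderiv (hch.depG _ i) _)
      ((tdeg_pd _ _).trans (hch.degG _ i)) (by positivity)
      (fun b hb => hch.lip ω hω i hi b hb j hj) b (by
        rw [hbn, sub_self, abs_zero]
        positivity) hbx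
    refine h1.trans ?_
    rw [one_mul, ← pow_add, le_div_iff₀ (by positivity), ← pow_add]
    refine pow_le_pow_right₀ (by norm_num) ?_
    have h2 : (Finset.Icc j i).sup g ≤ M := Finset.sup_le fun l hl => hM l (by
      have := (Finset.mem_Icc.1 hl).2
      omega)
    have h3 : g i ≤ (Finset.Icc j i).sup g :=
      Finset.le_sup (f := g) (Finset.mem_Icc.2 ⟨hj.le, le_rfl⟩)
    unfold nlp
    omega
  rw [dd_sp hci (hch.depG _ i) b hδ0]
  refine (Finset.abs_sum_le_sum_abs _ _).trans ?_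
  have h1 : ∀ l ∈ range i, |eval b (pderiv (some (c l)) (G (ptr F J ω) i)) * δ (some (c l))| ≤
      2 ^ (c₀ + D₁ + e + M) / 2 ^ g i * (1 / 2 ^ J) := by
    intro l hl
    have hl' := Finset.mem_range.1 hl
    rw [abs_mul]
    exact mul_le_mul (hder l hl') (hδ l (by omega)) (abs_nonneg _) (by positivity)
  refine (Finset.sum_le_sum h1).trans ?_
  rw [Finset.sum_const, Finset.card_range, nsmul_eq_mul]
  have h2 : (i : ℝ) ≤ 2 ^ n := by
    have h3 : (i : ℝ) ≤ n := by exact_mod_cast hi.le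
    have h4 : (n : ℝ) ≤ 2 ^ n := by exact_mod_cast (Nat.lt_two_pow_self (n := n)).le
    linarith
  calc (i : ℝ) * (2 ^ (c₀ + D₁ + e + M) / 2 ^ g i * (1 / 2 ^ J)) ≤
        2 ^ n * (2 ^ (c₀ + D₁ + e + M) / 2 ^ g i * (1 / 2 ^ J)) :=
        mul_le_mul_of_nonneg_right h2 (by positivity)
    _ = 2 ^ (C + e + M) / 2 ^ J / 2 ^ g i := by
        rw [hC, show c₀ + D₁ + n + e + M = n + (c₀ + D₁ + e + M) by omega, pow_add 2 n]
        ring

/-- **The charts at two own points** with the same digits. -/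
theorem lip_two (D n : ℕ) : ∃ C : ℕ, 1 ≤ C ∧ ∀ {m J : ℕ} {F : Fam m J} {c : ℕ → Fin m}
    {a w e M : ℕ} {g : ℕ → ℕ} {A : F.Ω → Prop}
    {G : PtT F → ℕ → MvPolynomial (Option (Fin m)) ℝ}
    {H : LnT F → ℕ → MvPolynomial (Option (Fin m)) ℝ}, Set.InjOn c (Set.Iio n) →
    ChOK F c n (fun _ => D) a w e g A G H → (∀ l < n, g l ≤ M) → e + M + C ≤ J →
    ∀ ω ν, A ω → F.T ω = F.T ν → ∀ i < n, (∀ l < i, F.X J ω (c l) = F.X J ν (c l)) →
      |eval (bt F ω) (G (ptr F J ω) i) - eval (bt F ν) (G (ptr F J ω) i)| ≤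
        2 ^ (C + e + M) / 2 ^ J / 2 ^ g i := by
  classical
  obtain ⟨C, hC, hlip⟩ := lip_pt D n
  refine ⟨C, hC, ?_⟩
  intro m J F c a w e M g A G H hc hch hM hJ ω ν hω hT i hi hX
  obtain ⟨δ, hδ⟩ : ∃ δ : Option (Fin m) → ℝ, δ = fun o => if ∃ l < i, o = some (c l) then
      bt F ν o - bt F ω o else 0 := ⟨_, rfl⟩
  have hδ0 : δ none = 0 := by
    rw [hδ]
    simp only
    rw [if_neg]
    rintro ⟨l, -, h⟩
    cases h
  have hδi : ∀ l < i, δ (some (c l)) = bt F ν (some (c l)) - bt F ω (some (c l)) := by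
    intro l hl
    rw [hδ]
    simp only
    rw [if_pos ⟨l, hl, rfl⟩]
  have pJ : (0 : ℝ) < 2 ^ J := by positivity
  have h1 : ∀ l < n, |δ (some (c l))| ≤ 1 / 2 ^ J := by
    intro l hl
    by_cases hli : l < i
    · rw [hδi l hli]
      have h2 : F.X J ω (c l) = F.X J ν (c l) := hX l hli
      have h3 := Int.abs_sub_lt_one_of_floor_eq_floor
        (h2.symm : ⌊(2 : ℝ) ^ J * F.x ν (c l)⌋ = ⌊(2 : ℝ) ^ J * F.x ω (c l)⌋)
      rw [← mul_sub, abs_mul, abs_of_pos pJ] at h3
      rw [le_div_iff₀ pJ]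
      have h4 : |bt F ν (some (c l)) - bt F ω (some (c l))| = |F.x ν (c l) - F.x ω (c l)| := rfl
      rw [h4]
      linarith
    · have h2 : δ (some (c l)) = 0 := by
        rw [hδ]
        simp only
        rw [if_neg]
        rintro ⟨l', hl', h⟩
        have h3 := hc (Set.mem_Iio.2 hl) (Set.mem_Iio.2 (show l' < n by omega))
          (Option.some_injective _ h)
        omega
      rw [h2, abs_zero]
      positivity
  have h2 := hlip hc hch hM hJ ω hω δ hδ0 h1 i hi 1 ⟨zero_le_one, le_rfl⟩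
  have h3 : eval (fun o => bt F ω o + 1 * δ o) (G (ptr F J ω) i) =
      eval (bt F ν) (G (ptr F J ω) i) := by
    refine hch.depG _ i _ _ ?_ fun l hl => ?_
    · rw [hδ0, mul_zero, add_zero]
      show F.t ω = F.t ν
      unfold Fam.t
      rw [hT]
    · rw [hδi l hl]
      ring
  rw [h3, abs_sub_comm] at h2
  exact h2

theorem ojet_zero (F : Fam m J) (k : Fin m) (G : MvPolynomial (Option (Fin m)) ℝ) (ω : F.Ω) :
    ojet F k 0 G ω = F.x ω k - eval (bt F ω) G := by
  unfold ojet jet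
  rw [Function.iterate_zero, id_eq, eval_alp, map_sub, eval_X]
  have e : (fun o => bt F ω o + 0 * bd F ω o) = bt F ω := by
    funext o
    ring
  rw [e]
  show bt F ω (some k) + 0 * bd F ω (some k) - _ = _
  rw [zero_mul, add_zero]
  rfl

/-- **The chain rule** for finitely many coordinates. -/
theorem CH_finch {Ω β W : Type} [Fintype Ω] {q : Ω → ℝ} (h0 : ∀ ω, 0 ≤ q ω) (Y : ℕ → Ω → β)
    (w : Ω → W) : ∀ n : ℕ, CH q (fun ω (l : Fin n) => Y l ω) w =
      ∑ i ∈ range n, CH q (Y i) (fun ω => ((fun l : Fin i => Y l ω), w ω)) := by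
  intro n
  induction n with
  | zero =>
    rw [Finset.range_zero, Finset.sum_empty]
    exact CH_eq_zero h0 fun ω ω' _ _ _ => funext fun i => i.elim0
  | succ n ih =>
    rw [Finset.sum_range_succ, ← ih]
    have h1 := CH_chain h0 (Y n) (fun ω (l : Fin n) => Y l ω) w
    rw [← h1]
    refine CH_congr h0 ?_ ?_ (fun _ _ _ _ h => h) (fun _ _ _ _ h => h)
    · intro ω ω' _ _ hh
      have h2 := (Prod.ext_iff.mp hh).1
      refine Prod.ext (congrFun h2 (Fin.last n)) (funext fun l => congrFun h2 l.castSucc)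
    · intro ω ω' _ _ hh
      have h2 := Prod.ext_iff.mp (Prod.ext_iff.mp hh).1
      refine funext fun l => ?_
      refine Fin.lastCases h2.1 (fun l => congrFun h2.2 l) l

/-- **The own position over closed charts is full** given a record, if the coordinates are full
given it. `N i`: digits of the height of `c i`. -/
theorem pos_full (D d : ℕ) : ∃ C : ℕ, 1 ≤ C ∧ ∀ {m J : ℕ} {F : Fam m J} {c : ℕ → Fin m}
    {a w e M : ℕ} {g N : ℕ → ℕ} {A : F.Ω → Prop}
    {G : PtT F → ℕ → MvPolynomial (Option (Fin m)) ℝ}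
    {H : LnT F → ℕ → MvPolynomial (Option (Fin m)) ℝ} {q : F.Ω → ℝ} {V : Type} {z : F.Ω → V}
    {f : ℕ → ℝ}, IsLaw q → (∀ ω, 0 < q ω → A ω) → Set.InjOn c (Set.Iio d) →
    ChOK F c d (fun _ => D) a w e g A G H → (∀ l < d, g l ≤ M) → e + M + C ≤ J →
    (∀ i < d, C + e + M + N i ≤ J + g i) → (∀ i < d, N i ≤ J) →
    (∀ ω ω', 0 < q ω → 0 < q ω' → z ω = z ω' → ∀ l < d, G (ptr F J ω) l = G (ptr F J ω') l) →
    (∀ i < d, f i ≤ CH q (fun ω => F.X J ω (c i))
      (fun ω => ((fun l : Fin i => F.X J ω (c l)), (z ω, F.W ω)))) →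
    ∑ i ∈ range d, (f i - ((J : ℝ) - N i) * Real.log 2) - d * Real.log 9 ≤
      CH q (fun ω (i : Fin d) => ⌊(2 : ℝ) ^ N i * ojet F (c i) 0 (G (ptr F J ω) i) ω⌋)
        (fun ω => (z ω, F.W ω)) := by
  classical
  obtain ⟨C, hC, hlip⟩ := lip_two D d
  refine ⟨C, hC, ?_⟩
  intro m J F c a w e M g N A G H q V z f hq hqA hc hch hM hJ hN hNJ hz hf
  have h0 := hq.nonneg
  obtain ⟨Y, hY⟩ : ∃ Y : ℕ → F.Ω → ℤ, Y = fun i ω => F.X J ω (c i) := ⟨_, rfl⟩
  obtain ⟨xT, hxT⟩ : ∃ xT : F.Ω → Fin d → ℤ, xT = fun ω (i : Fin d) =>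
    ⌊(2 : ℝ) ^ N i * ojet F (c i) 0 (G (ptr F J ω) i) ω⌋ := ⟨_, rfl⟩
  have h1 := CH_finch h0 Y (fun ω => (z ω, F.W ω)) d
  have h2 := CH_finch h0 Y (fun ω => (xT ω, (z ω, F.W ω))) d
  have h3 := CH_le_add h0 (fun ω (l : Fin d) => Y l ω) xT (fun ω => (z ω, F.W ω))
  rw [h1] at h3
  have h4 : CH q (fun ω (l : Fin d) => Y l ω) (fun ω => (xT ω, (z ω, F.W ω))) ≤
      ∑ i ∈ range d, (((J : ℝ) - N i) * Real.log 2 + Real.log 9) := by
    rw [h2]
    refine Finset.sum_le_sum fun i hi => ?_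
    have hid := Finset.mem_range.1 hi
    have hNp : (0 : ℝ) < 2 ^ N i := by positivity
    have hx1 : (1 : ℝ) ≤ 2 ^ (J - N i) := one_le_pow₀ (by norm_num)
    have hJN : (2 : ℝ) ^ J = 2 ^ (J - N i) * 2 ^ N i := by
      rw [← pow_add, Nat.sub_add_cancel (hNJ i hid)]
    have k1 := CH_le_int h0 hq.sum_one (Y i)
      (fun ω => ((fun l : Fin i => Y l ω), (xT ω, (z ω, F.W ω))))
      (fun _ => 2 * 2 ^ (J - N i) + 1) (by
        intro ω ω' hω hω' hh
        simp only [Prod.mk.injEq] at hh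
        obtain ⟨g1, g2, g3, g4⟩ := hh
        have g5 := congrFun g2 ⟨i, hid⟩
        rw [hxT] at g5
        simp only at g5
        rw [hz ω ω' hω hω' g3 i hid] at g5
        have g6 := Int.abs_sub_lt_one_of_floor_eq_floor g5
        have g7 := hlip hc hch hM hJ ω' ω (hqA ω' hω') (Prod.ext_iff.mp g4).1.symm i hid
          (fun l hl => by
            have := congrFun g1 ⟨l, hl⟩
            rw [hY] at this
            exact this.symm)
        have g8 : (2 : ℝ) ^ (C + e + M) / 2 ^ J / 2 ^ g i ≤ 1 / 2 ^ N i := by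
          rw [div_div, div_le_div_iff₀ (by positivity) (by positivity), one_mul, ← pow_add,
            ← pow_add]
          exact pow_le_pow_right₀ (by norm_num) (hN i hid)
        rw [← mul_sub, abs_mul, abs_of_pos hNp, ojet_zero, ojet_zero] at g6
        have g9 : |F.x ω (c i) - F.x ω' (c i)| ≤ 2 / 2 ^ N i := by
          have e1 : F.x ω (c i) - F.x ω' (c i) = (F.x ω (c i) -
              eval (bt F ω) (G (ptr F J ω') i) - (F.x ω' (c i) -
              eval (bt F ω') (G (ptr F J ω') i))) - (eval (bt F ω') (G (ptr F J ω') i) -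
              eval (bt F ω) (G (ptr F J ω') i)) := by ring
          rw [e1]
          refine (abs_sub _ _).trans ?_
          have e2 : |F.x ω (c i) - eval (bt F ω) (G (ptr F J ω') i) - (F.x ω' (c i) -
              eval (bt F ω') (G (ptr F J ω') i))| ≤ 1 / 2 ^ N i := by
            rw [le_div_iff₀ hNp]
            linarith
          have e3 : (2 : ℝ) / 2 ^ N i = 1 / 2 ^ N i + 1 / 2 ^ N i := by ring
          rw [e3]
          exact add_le_add e2 (g7.trans g8)
        have e4 : |(2 : ℝ) ^ J * F.x ω (c i) - 2 ^ J * F.x ω' (c i)| ≤ 2 * 2 ^ (J - N i) := by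
          rw [← mul_sub, abs_mul, abs_of_pos (by positivity : (0 : ℝ) < 2 ^ J)]
          refine (mul_le_mul_of_nonneg_left g9 (by positivity)).trans (le_of_eq ?_)
          rw [hJN]
          field_simp
        have f1 := Int.floor_le ((2 : ℝ) ^ J * F.x ω (c i))
        have f2 := Int.lt_floor_add_one ((2 : ℝ) ^ J * F.x ω (c i))
        have f3 := Int.floor_le ((2 : ℝ) ^ J * F.x ω' (c i))
        have f4 := Int.lt_floor_add_one ((2 : ℝ) ^ J * F.x ω' (c i))
        rw [hY]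
        show |((⌊(2 : ℝ) ^ J * F.x ω (c i)⌋ - ⌊(2 : ℝ) ^ J * F.x ω' (c i)⌋ : ℤ) : ℝ)| ≤ _
        push_cast
        rw [abs_le] at e4 ⊢
        constructor <;> linarith [e4.1, e4.2])
    refine k1.trans ?_
    rw [Ex_const hq.sum_one]
    have k2 : Real.log (2 * (2 * 2 ^ (J - N i) + 1) + 1) ≤ Real.log (2 ^ (J - N i) * 9) :=
      Real.log_le_log (by positivity) (by linarith)
    refine k2.trans (le_of_eq ?_)
    rw [Real.log_mul (by positivity) (by norm_num), Real.log_pow, Nat.cast_sub (hNJ i hid)]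
  have h5 : ∑ i ∈ range d, f i ≤ ∑ i ∈ range d, CH q (Y i)
      (fun ω => ((fun l : Fin i => Y l ω), (z ω, F.W ω))) := by
    refine Finset.sum_le_sum fun i hi => ?_
    have := hf i (Finset.mem_range.1 hi)
    rw [hY]
    exact this
  have h6 : ∑ i ∈ range d, (((J : ℝ) - N i) * Real.log 2 + Real.log 9) =
      ∑ i ∈ range d, ((J : ℝ) - N i) * Real.log 2 + d * Real.log 9 := by
    rw [Finset.sum_add_distrib, Finset.sum_const, Finset.card_range, nsmul_eq_mul]
  rw [h6] at h4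
  rw [Finset.sum_sub_distrib, ← hxT]
  linarith

end Pool.LA91
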