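import Pool.Agent.H73.D2.Tlf
import Pool.Agent.H91.FR.Pig

/-!
# The entropy fields of `TL`: one law

`hL_ojet`: the heights along the line and the own jets. `t_full`: the time in the window is full given
the line. `a_few`: the record of the window with the corner is few bits given the code of the tube and
the time.
-/

set_option autoImplicit false

namespace Pool.LA91

open Finset Real MvPolynomial
open Pool.Agent.H49.Ent Pool.Agent.H32.Dense Pool.STK Pool.KA Pool.KSAT Pool.K2S Pool.PB Pool.GEN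
open Pool.S6C Pool.RCD Pool.D2R Pool.D2G30 Pool.V1E
open Pool.PB.Trl (rt rt_mem t_rt)

variable {m J : ℕ}

/-! ### The heights along the line -/

/-- The heights along the line are the own paths, in natural units. -/
theorem hL_eq (F : Fam m J) {w : ℕ} (hw : w ≤ J) (c : ℕ → Fin m) (s : ℕ → ℕ) (d : ℕ)
    (P : ℕ → MvPolynomial (Option (Fin m)) ℝ) (i : Fin d) (ω : F.Ω) :
    hL c s d w P (slam F w ω) (some i) = Polynomial.C (2 ^ s i) *
      (aeval (lp (bt F ω) (bd F ω)) (X (some (c i)) - P i)).comp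
        (Polynomial.C (1 / 2 ^ w) * (Polynomial.X - Polynomial.C (rt F w ω))) := by
  rw [← dv_comp F hw (fun _ => P i) (c i) ω]
  rfl

theorem hL_jet (F : Fam m J) {w : ℕ} (hw : w ≤ J) (c : ℕ → Fin m) (s : ℕ → ℕ) (d : ℕ)
    (P : ℕ → MvPolynomial (Option (Fin m)) ℝ) (i : Fin d) (j : ℕ) (ω : F.Ω) :
    (Polynomial.derivative^[j] (hL c s d w P (slam F w ω) (some i))).eval (rt F w ω) =
      2 ^ s i * ((1 / 2 ^ w) ^ j * ojet F (c i) j (P i) ω) := by
  rw [hL_eq F hw, Polynomial.iterate_derivative_C_mul, der_aff, Polynomial.eval_mul,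
    Polynomial.eval_C, Polynomial.eval_mul, Polynomial.eval_C, Polynomial.eval_comp,
    Polynomial.eval_mul, Polynomial.eval_C, Polynomial.eval_sub, Polynomial.eval_X,
    Polynomial.eval_C, sub_self, mul_zero]
  rfl

/-! ### The time -/

/-- The time in the window is full given the line. -/
theorem t_full {F : Fam m J} {q : F.Ω → ℝ} (hq : IsLaw q) {w : ℕ} (hw : w ≤ J) {e : ℝ}
    (ht : (J : ℝ) * Real.log 2 - e ≤ CH q F.T (fun ω => (F.l ω, F.Z ω))) :
    Real.log ((2 ^ (J - w) : ℕ) : ℝ) - e ≤ CH q (twF F w) (slam F w) := by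
  have h0 := hq.nonneg
  have h1 := CH_le_add h0 F.T (F.T1 w) (fun ω => (F.l ω, F.Z ω))
  have h2 : CH q (F.T1 w) (fun ω => (F.l ω, F.Z ω)) ≤ (w : ℝ) * Real.log 2 := by
    have h3 := CH_le_card h0 hq.sum_one (F.T1 w) (fun ω => (F.l ω, F.Z ω))
      (fun _ => Finset.range (2 ^ w)) (fun ω _ => by
        rw [Finset.mem_range]
        unfold Fam.T1
        rw [Nat.div_lt_iff_lt_mul (by positivity), ← pow_add]
        have := F.tim ω
        rwa [show w + (J - w) = J by omega])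
    refine h3.trans (le_of_eq ?_)
    rw [Finset.card_range]
    have : (fun _ : F.Ω => Real.log ((2 ^ w : ℕ) : ℝ)) = fun _ => (w : ℝ) * Real.log 2 := by
      funext _
      push_cast
      rw [Real.log_pow]
    rw [this]
    exact Ex_const hq.sum_one _
  have h4 : CH q F.T (fun ω => (F.T1 w ω, (F.l ω, F.Z ω))) ≤ CH q (twF F w) (slam F w) := by
    refine (CH_mono_left h0 (X' := twF F w) fun ω ω' _ _ hh => ?_).trans
      (CH_mono_cond h0 fun ω ω' _ _ hh => ?_)
    · simp only [Prod.mk.injEq] at hh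
      obtain ⟨h5, h6, -⟩ := hh
      unfold twF at h5
      unfold Fam.T1 at h6
      rw [← Nat.div_add_mod (F.T ω) (2 ^ (J - w)), ← Nat.div_add_mod (F.T ω') (2 ^ (J - w)),
        h5, h6]
    · unfold slam
      simp only [Prod.mk.injEq] at hh ⊢
      exact ⟨hh.2.1, hh.2.2, hh.1⟩
  have h5 : Real.log ((2 ^ (J - w) : ℕ) : ℝ) = ((J : ℝ) - w) * Real.log 2 := by
    push_cast
    rw [Real.log_pow, Nat.cast_sub hw]
  rw [h5]
  linarith

/-! ### The record of the window -/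

/-- The time from its two parts. -/
theorem T_eq (F : Fam m J) (w : ℕ) {ω ω' : F.Ω} (h1 : F.T1 w ω = F.T1 w ω')
    (h2 : twF F w ω = twF F w ω') : F.T ω = F.T ω' := by
  unfold twF at h2
  unfold Fam.T1 at h1
  rw [← Nat.div_add_mod (F.T ω) (2 ^ (J - w)), ← Nat.div_add_mod (F.T ω') (2 ^ (J - w)), h1, h2]

theorem rt_eq_tw (F : Fam m J) (w : ℕ) {ω ω' : F.Ω} (h2 : twF F w ω = twF F w ω') :
    rt F w ω = rt F w ω' := by
  unfold twF at h2
  unfold rt
  rw [h2]

/-- **The record of the window with the corner** is few bits given the code of the tube and the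
time in the window. -/
theorem a_few {F : Fam m J} {q : F.Ω → ℝ} (hq : IsLaw q) {c : ℕ → Fin m} {s : ℕ → ℕ}
    {d w q₀ Q : ℕ} {qe : Fin d → ℕ} {V : Type} {v : F.Ω → V}
    {G₀ : PtT F → ℕ → MvPolynomial (Option (Fin m)) ℝ}
    {G₁ : PtT F → MvPolynomial (Option (Fin m)) ℝ}
    {H₀ : LnT F → ℕ → MvPolynomial (Option (Fin m)) ℝ}
    {H₁ : LnT F → MvPolynomial (Option (Fin m)) ℝ} {vL : LnT F → V}
    (hv : ∀ ω, 0 < q ω → v ω = vL (slam F w ω))
    (h0 : ∀ ω, 0 < q ω → ∀ l < d, G₀ (ptr F J ω) l = H₀ (co q₀ (slam F w ω)) l)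
    (h1 : ∀ ω, 0 < q ω → G₁ (ptr F J ω) = H₁ (slam F w ω)) {X : ℝ}
    (hnear : ∀ ω, 0 < q ω → ∀ i : Fin d,
      |2 ^ Q * ((hL c s d w (trn d (G₀ (ptr F J ω))) (slam F w ω) (some i)).eval (rt F w ω)) -
        2 ^ Q * ((hL c s d w (trn d (G₀ (ptr F J ω))) (slam F w ω) (some i)).eval 0) -
        2 ^ Q * (rt F w ω * ((eL c s d w qe (trn d (G₀ (ptr F J ω))) (slam F w ω) i : ℤ) /
          2 ^ qe i))| ≤ X) :
    CH q (kaF F c s d w Q v G₀ G₁)
      (fun ω => (ctF F c s d w q₀ Q qe H₀ H₁ vL (slam F w ω), twF F w ω)) ≤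
      d * Real.log (2 * (2 * X + 3) + 1) := by
  have h00 := hq.nonneg
  have hfr : ∀ ω, 0 < q ω → trn d (G₀ (ptr F J ω)) = frH F d q₀ H₀ (slam F w ω) := by
    intro ω hω
    unfold frH trn
    funext l
    by_cases hl : l < d
    · rw [if_pos hl, if_pos hl, h0 ω hω l hl]
    · rw [if_neg hl, if_neg hl]
  have e1 : CH q (kaF F c s d w Q v G₀ G₁)
      (fun ω => (ctF F c s d w q₀ Q qe H₀ H₁ vL (slam F w ω), twF F w ω)) ≤
      CH q (crF F c s d w Q G₀)
        (fun ω => (ctF F c s d w q₀ Q qe H₀ H₁ vL (slam F w ω), twF F w ω)) := by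
    refine CH_mono_left h00 fun ω ω' hω hω' hh => ?_
    simp only [Prod.mk.injEq, ctF] at hh
    obtain ⟨k1, ⟨⟨k2, k3, k4⟩, k5, k6, k7⟩, k8⟩ := hh
    unfold kaF kwF
    rw [hv ω hω, hv ω' hω', hfr ω hω, hfr ω' hω', h1 ω hω, h1 ω' hω', k1, k2, k3, k4]
    rw [T_eq F w k5 k8]
  refine e1.trans ?_
  have e2 := CH_le_vec h00 hq.sum_one (crF F c s d w Q G₀)
    (fun ω => (ctF F c s d w q₀ Q qe H₀ H₁ vL (slam F w ω), twF F w ω))
    (fun _ => 2 * X + 3) (by
      intro ω ω' hω hω' hh i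
      simp only [Prod.mk.injEq, ctF] at hh
      obtain ⟨⟨⟨k2, k3, k4⟩, k5, k6, k7⟩, k8⟩ := hh
      have n1 := hnear ω hω i
      have n2 := hnear ω' hω' i
      rw [hfr ω hω] at n1
      rw [hfr ω' hω'] at n2
      unfold crF
      rw [hfr ω hω, hfr ω' hω']
      have k6' := congrFun k6 i
      have k7' := congrFun k7 i
      have k9 := rt_eq_tw F w k8
      unfold cL at k7' ⊢
      obtain ⟨a, ha⟩ : ∃ a : ℝ, a = 2 ^ Q * ((hL c s d w (frH F d q₀ H₀ (slam F w ω))
        (slam F w ω) (some i)).eval (rt F w ω)) := ⟨_, rfl⟩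
      obtain ⟨a', ha'⟩ : ∃ a : ℝ, a = 2 ^ Q * ((hL c s d w (frH F d q₀ H₀ (slam F w ω'))
        (slam F w ω') (some i)).eval (rt F w ω')) := ⟨_, rfl⟩
      obtain ⟨b, hb⟩ : ∃ b : ℝ, b = 2 ^ Q * ((hL c s d w (frH F d q₀ H₀ (slam F w ω))
        (slam F w ω) (some i)).eval 0) := ⟨_, rfl⟩
      obtain ⟨b', hb'⟩ : ∃ b : ℝ, b = 2 ^ Q * ((hL c s d w (frH F d q₀ H₀ (slam F w ω'))
        (slam F w ω') (some i)).eval 0) := ⟨_, rfl⟩
      rw [← ha, ← hb] at n1
      rw [← ha', ← hb', ← k6', ← k9] at n2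
      rw [← hb, ← hb'] at k7'
      rw [← ha, ← ha']
      have f1 := Int.floor_le a
      have f2 := Int.lt_floor_add_one a
      have f3 := Int.floor_le a'
      have f4 := Int.lt_floor_add_one a'
      have f5 := abs_lt.1 (Int.abs_sub_lt_one_of_floor_eq_floor k7')
      rw [abs_le] at n1 n2
      push_cast
      rw [abs_le]
      constructor <;> linarith [n1.1, n1.2, n2.1, n2.2, f5.1, f5.2])
  refine e2.trans (le_of_eq ?_)
  rw [Ex_const hq.sum_one]

end Pool.LA91
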