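import Pool.Agent.H91.D2.Tlc1

/-!
# The entropy fields of `TL`: positions and velocities

`CH_fl`: a vector of floors which varies little. `full_law`: the position in the tube at the beginning
of the window is full given the record of the ball and the code of the velocity, if the own position
is full given the record, and if the velocity has no information on it.
`fr_law`: the code of the velocity against the own velocity.
-/

set_option autoImplicit false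

namespace Pool.LA91

open Finset Real
open Pool.Agent.H49.Ent Pool.Agent.H32.Dense Pool.STK Pool.KA

section

variable {Ω S T T' : Type} [Fintype Ω] {q : Ω → ℝ} {d : ℕ}

/-- **A vector of floors which varies little.** -/
theorem CH_fl (hq : IsLaw q) (X : Ω → Fin d → ℝ) (W : Ω → T) {D : ℝ}
    (h : ∀ ω ω', 0 < q ω → 0 < q ω' → W ω = W ω' → ∀ i, |X ω i - X ω' i| ≤ D) :
    CH q (fun ω i => ⌊X ω i⌋) W ≤ d * Real.log (2 * (D + 1) + 1) := by
  have h1 := CH_le_vec hq.nonneg hq.sum_one (fun ω i => ⌊X ω i⌋) W (fun _ => D + 1) (by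
    intro ω ω' hω hω' hh i
    have k1 := h ω ω' hω hω' hh i
    have f1 := Int.floor_le (X ω i)
    have f2 := Int.lt_floor_add_one (X ω i)
    have f3 := Int.floor_le (X ω' i)
    have f4 := Int.lt_floor_add_one (X ω' i)
    push_cast
    rw [abs_le] at k1 ⊢
    constructor <;> linarith [k1.1, k1.2])
  refine h1.trans (le_of_eq ?_)
  rw [Ex_const hq.sum_one]

/-- Equal floors, with a factor. -/
theorem fl_scale {x y a b c : ℝ} (hb : 0 < b) (ha : 0 ≤ a) (h : ⌊b * x⌋ = ⌊b * y⌋)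
    (hab : a ≤ c * b) : |a * x - a * y| ≤ c := by
  have h1 := Int.abs_sub_lt_one_of_floor_eq_floor h
  rw [← mul_sub, abs_mul, abs_of_pos hb] at h1
  rw [← mul_sub, abs_mul, abs_of_nonneg ha]
  have h2 : 0 ≤ |x - y| := abs_nonneg _
  have hc : 0 ≤ c := by
    by_contra hc
    push Not at hc
    nlinarith
  calc a * |x - y| ≤ c * b * |x - y| := mul_le_mul_of_nonneg_right hab h2
    _ = c * (b * |x - y|) := by ring
    _ ≤ c * 1 := mul_le_mul_of_nonneg_left h1.le hc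
    _ = c := mul_one c

/-- The floor of the first digits and the digits behind. -/
theorem fl_split {x y : ℝ} (k : ℕ) (h1 : ⌊x⌋ = ⌊y⌋)
    (h2 : ⌊(2 : ℝ) ^ k * Int.fract x⌋₊ = ⌊(2 : ℝ) ^ k * Int.fract y⌋₊) :
    ⌊(2 : ℝ) ^ k * x⌋ = ⌊(2 : ℝ) ^ k * y⌋ := by
  have hf : ∀ x : ℝ, 0 ≤ (2 : ℝ) ^ k * Int.fract x := fun x =>
    mul_nonneg (by positivity) (Int.fract_nonneg x)
  have e : ∀ x : ℝ, ⌊(2 : ℝ) ^ k * x⌋ = (2 ^ k : ℕ) * ⌊x⌋ + (⌊(2 : ℝ) ^ k * Int.fract x⌋₊ : ℤ) := by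
    intro x
    rw [Int.natCast_floor_eq_floor (hf x)]
    have e1 : (2 : ℝ) ^ k * x = (2 : ℝ) ^ k * Int.fract x + (((2 ^ k : ℕ) * ⌊x⌋ : ℤ) : ℝ) := by
      have e2 : (2 : ℝ) ^ k * x = 2 ^ k * (⌊x⌋ + Int.fract x) := by rw [Int.floor_add_fract]
      push_cast
      rw [e2]
      ring
    rw [e1, Int.floor_add_intCast]
    ring
  rw [e x, e y, h1, h2]

/-- **The position at the beginning of the window** is full given the record and the code of the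
velocity. -/
theorem full_law (hq : IsLaw q) {Q k : ℕ} {qe : Fin d → ℕ} {p : Fin d → ℝ} {x δ : ℝ}
    (h0 hT hv hv0 : Ω → Fin d → ℝ) (u : Ω → ℝ) (Z : Ω → S) (E : Ω → Fin d → ℤ)
    (hu : ∀ ω, 0 < q ω → u ω ∈ Set.Icc (0 : ℝ) 1) (hZu : Det q Z u)
    (hZc : Det q Z (fun ω i => ⌊2 ^ Q * hT ω i⌋))
    (hE : ∀ ω, 0 < q ω → ∀ i, E ω i = ⌊2 ^ qe i * hv0 ω i⌋)
    (n1 : ∀ ω, 0 < q ω → ∀ i, |hT ω i - h0 ω i - u ω * hv ω i| ≤ δ)
    (n2 : ∀ ω, 0 < q ω → ∀ i, |hv ω i - hv0 ω i| ≤ δ)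
    (d1 : 2 ^ (Q + k) * δ ≤ 1) (d2 : ∀ i, 2 ^ qe i * δ ≤ 1)
    (p1 : ∀ i, (2 : ℝ) ^ (Q + k) ≤ x * 2 ^ p i) (p2 : ∀ i, (2 : ℝ) ^ qe i ≤ x * 2 ^ p i) :
    CH q (fun ω i => ⌊2 ^ (Q + k) * hT ω i⌋) Z -
        (CH q (fun ω i => ⌊2 ^ p i * hv ω i⌋) Z - CH q (fun ω i => ⌊2 ^ p i * hv ω i⌋)
          (fun ω => ((fun i => ⌊2 ^ (Q + k) * hT ω i⌋), Z ω))) -
        3 * (d * Real.log (2 * x + 9)) ≤
      CH q (fun ω i => ⌊2 ^ k * Int.fract (2 ^ Q * h0 ω i)⌋₊) (fun ω => (Z ω, E ω)) := by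
  have hn := hq.nonneg
  rcases Nat.eq_zero_or_pos d with rfl | hd
  · have e1 : CH q (fun ω (i : Fin 0) => ⌊2 ^ (Q + k) * hT ω i⌋) Z = 0 :=
      CH_eq_zero hn fun ω ω' _ _ _ => funext fun i => i.elim0
    have e2 : CH q (fun ω (i : Fin 0) => ⌊2 ^ p i * hv ω i⌋) Z = 0 :=
      CH_eq_zero hn fun ω ω' _ _ _ => funext fun i => i.elim0
    have e3 : CH q (fun ω (i : Fin 0) => ⌊2 ^ p i * hv ω i⌋)
        (fun ω => ((fun i => ⌊2 ^ (Q + k) * hT ω i⌋), Z ω)) = 0 :=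
      CH_eq_zero hn fun ω ω' _ _ _ => funext fun i => i.elim0
    rw [e1, e2, e3]
    have := CH_nonneg hn (fun ω (i : Fin 0) => ⌊2 ^ k * Int.fract (2 ^ Q * h0 ω i)⌋₊)
      (fun ω => (Z ω, E ω))
    simp only [Nat.cast_zero, zero_mul, mul_zero, sub_zero]
    exact this
  have hx : 0 ≤ x := by
    have h1 := p1 ⟨0, hd⟩
    have h2 : (0 : ℝ) < 2 ^ p ⟨0, hd⟩ := Real.rpow_pos_of_pos (by norm_num) _
    have h3 : (0 : ℝ) < 2 ^ (Q + k) := by positivity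
    by_contra hx
    push Not at hx
    nlinarith
  have hp0 : ∀ i, (0 : ℝ) < 2 ^ p i := fun i => Real.rpow_pos_of_pos (by norm_num) _
  obtain ⟨U, hU⟩ : ∃ U : Ω → Fin d → ℤ, U = fun ω i => ⌊2 ^ p i * hv ω i⌋ := ⟨_, rfl⟩
  obtain ⟨xT, hxT⟩ : ∃ U : Ω → Fin d → ℤ, U = fun ω i => ⌊2 ^ (Q + k) * hT ω i⌋ := ⟨_, rfl⟩
  obtain ⟨x0, hx0⟩ : ∃ U : Ω → Fin d → ℤ, U = fun ω i => ⌊2 ^ (Q + k) * h0 ω i⌋ := ⟨_, rfl⟩
  obtain ⟨c0, hc0⟩ : ∃ U : Ω → Fin d → ℤ, U = fun ω i => ⌊2 ^ Q * h0 ω i⌋ := ⟨_, rfl⟩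
  obtain ⟨xd, hxd⟩ : ∃ U : Ω → Fin d → ℕ,
    U = fun ω i => ⌊2 ^ k * Int.fract (2 ^ Q * h0 ω i)⌋₊ := ⟨_, rfl⟩
  have e9 : (fun ω => ((fun i => ⌊2 ^ (Q + k) * hT ω i⌋), Z ω)) = fun ω => (xT ω, Z ω) := by
    rw [hxT]
  rw [← hU, ← hxT, ← hxd, e9]
  have hδ : 0 ≤ δ := by
    obtain ⟨ω, hω⟩ : ∃ ω, 0 < q ω := by
      by_contra hcon
      push Not at hcon
      have h1 : ∑ ω, q ω ≤ 0 := Finset.sum_nonpos fun ω _ => hcon ω
      rw [hq.sum_one] at h1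
      linarith
    exact (abs_nonneg _).trans (n2 ω hω ⟨0, hd⟩)
  have hQk : (2 : ℝ) ^ Q ≤ 2 ^ (Q + k) := pow_le_pow_right₀ (by norm_num) (by omega)
  have dQ : 2 ^ Q * δ ≤ 1 := (mul_le_mul_of_nonneg_right hQk hδ).trans d1
  have hlog : ∀ D : ℝ, 0 ≤ D → D ≤ x + 3 →
      (d : ℝ) * Real.log (2 * (D + 1) + 1) ≤ d * Real.log (2 * x + 9) := by
    intro D hD0 hD
    exact mul_le_mul_of_nonneg_left (Real.log_le_log (by linarith) (by linarith))
      (Nat.cast_nonneg d)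
  -- the velocity of two samples
  have hvel : ∀ (a : ℝ), 0 ≤ a → ∀ i, a ≤ x * 2 ^ p i → ∀ ω ω', U ω = U ω' →
      |a * hv ω i - a * hv ω' i| ≤ x := by
    intro a ha i hai ω ω' hUU
    refine fl_scale (hp0 i) ha ?_ hai
    have := congrFun hUU i
    rw [hU] at this
    exact this
  -- s1
  have s1 : CH q xd (fun ω => (U ω, (Z ω, E ω))) ≤ CH q xd (fun ω => (Z ω, E ω)) :=
    CH_mono_cond hn fun ω ω' _ _ hh => (Prod.ext_iff.mp hh).2
  -- s2
  have s2 : CH q x0 (fun ω => (U ω, (Z ω, E ω))) ≤ CH q c0 (fun ω => (U ω, (Z ω, E ω))) +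
      CH q xd (fun ω => (U ω, (Z ω, E ω))) := by
    have h1 := CH_subadd hn c0 xd (fun ω => (U ω, (Z ω, E ω)))
    refine le_trans (CH_mono_left hn fun ω ω' _ _ hh => ?_) h1
    simp only [Prod.mk.injEq] at hh
    rw [hx0]
    funext i
    have h2 := congrFun hh.1.1 i
    have h3 := congrFun hh.1.2 i
    rw [hc0] at h2
    rw [hxd] at h3
    have h4 := fl_split k h2 h3
    simp only
    rw [pow_add, mul_comm ((2 : ℝ) ^ Q), mul_assoc, mul_assoc]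
    exact h4
  -- s3
  have s3 : CH q c0 (fun ω => (U ω, (Z ω, E ω))) ≤ d * Real.log (2 * x + 9) := by
    rw [hc0]
    refine (CH_fl hq _ _ (D := x + 3) ?_).trans (hlog _ (by linarith) le_rfl)
    intro ω ω' hω hω' hh i
    simp only [Prod.mk.injEq] at hh
    obtain ⟨k1, k2, k3⟩ := hh
    have e1 := n1 ω hω i
    have e2 := n1 ω' hω' i
    have e3 := Int.abs_sub_lt_one_of_floor_eq_floor (congrFun (hZc ω ω' hω hω' k2) i)
    have e4 := hvel (2 ^ Q) (by positivity) i (hQk.trans (p1 i)) ω ω' k1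
    rw [← hZu ω ω' hω hω' k2] at e2
    have e5 := hu ω hω
    have e6 : |u ω * (2 ^ Q * hv ω i - 2 ^ Q * hv ω' i)| ≤ x := by
      rw [abs_mul, abs_of_nonneg e5.1]
      calc u ω * |2 ^ Q * hv ω i - 2 ^ Q * hv ω' i| ≤ 1 * x :=
            mul_le_mul e5.2 e4 (abs_nonneg _) zero_le_one
        _ = x := one_mul x
    have hp : (0 : ℝ) < 2 ^ Q := by positivity
    have e7 : |2 ^ Q * (hT ω i - h0 ω i - u ω * hv ω i)| ≤ 1 := by
      rw [abs_mul, abs_of_pos hp]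
      exact (mul_le_mul_of_nonneg_left e1 hp.le).trans dQ
    have e8 : |2 ^ Q * (hT ω' i - h0 ω' i - u ω * hv ω' i)| ≤ 1 := by
      rw [abs_mul, abs_of_pos hp]
      exact (mul_le_mul_of_nonneg_left e2 hp.le).trans dQ
    rw [abs_le] at e6 e7 e8 ⊢
    have e3' := abs_lt.1 e3
    constructor <;> linarith [e6.1, e6.2, e7.1, e7.2, e8.1, e8.2, e3'.1, e3'.2]
  -- s4
  have s4 : CH q xT (fun ω => (U ω, (Z ω, E ω))) ≤ CH q x0 (fun ω => (U ω, (Z ω, E ω))) +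
      d * Real.log (2 * x + 9) := by
    refine (CH_le_add hn xT x0 (fun ω => (U ω, (Z ω, E ω)))).trans (add_le_add le_rfl ?_)
    rw [hxT]
    refine (CH_fl hq _ _ (D := x + 3) ?_).trans (hlog _ (by linarith) le_rfl)
    intro ω ω' hω hω' hh i
    simp only [Prod.mk.injEq] at hh
    obtain ⟨k0, k1, k2, k3⟩ := hh
    have e1 := n1 ω hω i
    have e2 := n1 ω' hω' i
    rw [hx0] at k0
    have e3 := Int.abs_sub_lt_one_of_floor_eq_floor (congrFun k0 i)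
    have e4 := hvel (2 ^ (Q + k)) (by positivity) i (p1 i) ω ω' k1
    rw [← hZu ω ω' hω hω' k2] at e2
    have e5 := hu ω hω
    have e6 : |u ω * (2 ^ (Q + k) * hv ω i - 2 ^ (Q + k) * hv ω' i)| ≤ x := by
      rw [abs_mul, abs_of_nonneg e5.1]
      calc u ω * |2 ^ (Q + k) * hv ω i - 2 ^ (Q + k) * hv ω' i| ≤ 1 * x :=
            mul_le_mul e5.2 e4 (abs_nonneg _) zero_le_one
        _ = x := one_mul x
    have hp : (0 : ℝ) < 2 ^ (Q + k) := by positivity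
    have e7 : |2 ^ (Q + k) * (hT ω i - h0 ω i - u ω * hv ω i)| ≤ 1 := by
      rw [abs_mul, abs_of_pos hp]
      exact (mul_le_mul_of_nonneg_left e1 hp.le).trans d1
    have e8 : |2 ^ (Q + k) * (hT ω' i - h0 ω' i - u ω * hv ω' i)| ≤ 1 := by
      rw [abs_mul, abs_of_pos hp]
      exact (mul_le_mul_of_nonneg_left e2 hp.le).trans d1
    rw [abs_le] at e6 e7 e8 ⊢
    have e3' := abs_lt.1 e3
    constructor <;> linarith [e6.1, e6.2, e7.1, e7.2, e8.1, e8.2, e3'.1, e3'.2]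
  -- s5
  have s5 : CH q xT (fun ω => (U ω, Z ω)) ≤ d * Real.log (2 * x + 9) +
      CH q xT (fun ω => (U ω, (Z ω, E ω))) := by
    have h1 := CH_le_add hn xT E (fun ω => (U ω, Z ω))
    have h2 : CH q xT (fun ω => (E ω, (U ω, Z ω))) ≤ CH q xT (fun ω => (U ω, (Z ω, E ω))) := by
      refine CH_mono_cond hn fun ω ω' _ _ hh => ?_
      simp only [Prod.mk.injEq] at hh ⊢
      tauto
    have h3 : CH q E (fun ω => (U ω, Z ω)) ≤ d * Real.log (2 * x + 9) := by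
      have h4 : CH q E (fun ω => (U ω, Z ω)) ≤ CH q (fun ω i => ⌊2 ^ qe i * hv0 ω i⌋)
          (fun ω => (U ω, Z ω)) := by
        refine CH_mono_left hn fun ω ω' hω hω' hh => funext fun i => ?_
        rw [hE ω hω, hE ω' hω']
        exact congrFun (Prod.ext_iff.mp hh).1 i
      refine h4.trans ((CH_fl hq _ _ (D := x + 3) ?_).trans (hlog _ (by linarith) le_rfl))
      intro ω ω' hω hω' hh i
      simp only [Prod.mk.injEq] at hh
      have e1 := n2 ω hω i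
      have e2 := n2 ω' hω' i
      have e4 := hvel (2 ^ qe i) (by positivity) i (p2 i) ω ω' hh.1
      have hp : (0 : ℝ) < 2 ^ qe i := by positivity
      have e7 : |2 ^ qe i * (hv ω i - hv0 ω i)| ≤ 1 := by
        rw [abs_mul, abs_of_pos hp]
        exact (mul_le_mul_of_nonneg_left e1 hp.le).trans (d2 i)
      have e8 : |2 ^ qe i * (hv ω' i - hv0 ω' i)| ≤ 1 := by
        rw [abs_mul, abs_of_pos hp]
        exact (mul_le_mul_of_nonneg_left e2 hp.le).trans (d2 i)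
      rw [abs_le] at e4 e7 e8 ⊢
      constructor <;> linarith [e4.1, e4.2, e7.1, e7.2, e8.1, e8.2]
    linarith
  -- s6
  have s6 := inf_symm hn U xT Z
  linarith

/-- **The code of the velocity and the own velocity**: each one is few bits given the other. -/
theorem vel_code (hq : IsLaw q) {qe : Fin d → ℕ} {p : Fin d → ℝ} {x δ : ℝ}
    (hv hv0 : Ω → Fin d → ℝ) (E : Ω → Fin d → ℤ)
    (hE : ∀ ω, 0 < q ω → ∀ i, E ω i = ⌊2 ^ qe i * hv0 ω i⌋)
    (n2 : ∀ ω, 0 < q ω → ∀ i, |hv ω i - hv0 ω i| ≤ δ)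
    (d2 : ∀ i, 2 ^ qe i * δ ≤ 1) (d3 : ∀ i, 2 ^ p i * δ ≤ x)
    (p2 : ∀ i, (2 : ℝ) ^ qe i ≤ x * 2 ^ p i) (p3 : ∀ i, (2 : ℝ) ^ p i ≤ x * 2 ^ qe i) :
    CH q E (fun ω i => ⌊2 ^ p i * hv ω i⌋) ≤ d * Real.log (2 * (x + 3) + 1) ∧
      CH q (fun ω i => ⌊2 ^ p i * hv ω i⌋) E ≤ d * Real.log (2 * (3 * x + 1) + 1) := by
  have hn := hq.nonneg
  have hp0 : ∀ i, (0 : ℝ) < 2 ^ p i := fun i => Real.rpow_pos_of_pos (by norm_num) _
  constructor
  · have h4 : CH q E (fun ω i => ⌊2 ^ p i * hv ω i⌋) ≤ CH q (fun ω i => ⌊2 ^ qe i * hv0 ω i⌋)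
        (fun ω i => ⌊2 ^ p i * hv ω i⌋) := by
      refine CH_mono_left hn fun ω ω' hω hω' hh => funext fun i => ?_
      rw [hE ω hω, hE ω' hω']
      exact congrFun (Prod.ext_iff.mp hh).1 i
    refine h4.trans ((CH_fl hq _ _ (D := x + 2) ?_).trans (le_of_eq (by ring_nf)))
    intro ω ω' hω hω' hh i
    have e1 := n2 ω hω i
    have e2 := n2 ω' hω' i
    have e4 : |2 ^ qe i * hv ω i - 2 ^ qe i * hv ω' i| ≤ x :=
      fl_scale (hp0 i) (by positivity) (congrFun hh i) (p2 i)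
    have hp : (0 : ℝ) < 2 ^ qe i := by positivity
    have e7 : |2 ^ qe i * (hv ω i - hv0 ω i)| ≤ 1 := by
      rw [abs_mul, abs_of_pos hp]
      exact (mul_le_mul_of_nonneg_left e1 hp.le).trans (d2 i)
    have e8 : |2 ^ qe i * (hv ω' i - hv0 ω' i)| ≤ 1 := by
      rw [abs_mul, abs_of_pos hp]
      exact (mul_le_mul_of_nonneg_left e2 hp.le).trans (d2 i)
    rw [abs_le] at e4 e7 e8 ⊢
    constructor <;> linarith [e4.1, e4.2, e7.1, e7.2, e8.1, e8.2]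
  · refine (CH_fl hq _ _ (D := 3 * x) ?_)
    intro ω ω' hω hω' hh i
    have e1 := n2 ω hω i
    have e2 := n2 ω' hω' i
    have hh' := congrFun hh i
    rw [hE ω hω, hE ω' hω'] at hh'
    have e4 : |2 ^ p i * hv0 ω i - 2 ^ p i * hv0 ω' i| ≤ x :=
      fl_scale (b := 2 ^ qe i) (by positivity) (hp0 i).le hh' (p3 i)
    have e7 : |2 ^ p i * (hv ω i - hv0 ω i)| ≤ x := by
      rw [abs_mul, abs_of_pos (hp0 i)]
      exact (mul_le_mul_of_nonneg_left e1 (hp0 i).le).trans (d3 i)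
    have e8 : |2 ^ p i * (hv ω' i - hv0 ω' i)| ≤ x := by
      rw [abs_mul, abs_of_pos (hp0 i)]
      exact (mul_le_mul_of_nonneg_left e2 (hp0 i).le).trans (d3 i)
    rw [abs_le] at e4 e7 e8 ⊢
    constructor <;> linarith [e4.1, e4.2, e7.1, e7.2, e8.1, e8.2]

end

end Pool.LA91
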