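import Pool.Agent.H91.D2.Tlc3

/-!
# The entropy fields of `TL`: one law, with the letters of the family

`TlI`: the closed frame, the closed charts and the records. `tl_law`: the fields `fr` and `full` from
the free velocities, the fullness of the coordinates, and the few bits of the positions given the
records.
-/

set_option autoImplicit false

namespace Pool.LA91

open Finset Real MvPolynomial
open Pool.Agent.H49.Ent Pool.Agent.H32.Dense Pool.STK Pool.KA Pool.KSAT Pool.K2S Pool.PB Pool.GEN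
open Pool.S6C Pool.RCD Pool.D2R Pool.CHT Pool.D2G30 Pool.V1E
open Pool.PB.Trl (rt rt_mem t_rt)

variable {m J : ℕ}

/-- **The letters**: a frame which is closed at the window `wb`, closed functions at the windows `W`
and `Wa`, the records. -/
structure TlI (F : Fam m J) (A : F.Ω → Prop) (c : ℕ → Fin m) (d D e M : ℕ) (gx : ℕ → ℕ)
    (wb W Wa : ℕ) {V V' : Type} (v : F.Ω → V) (vL : LnT F → V) (v' : F.Ω → V')
    (G₀ : PtT F → ℕ → MvPolynomial (Option (Fin m)) ℝ)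
    (G₁ G₂ : PtT F → MvPolynomial (Option (Fin m)) ℝ)
    (H₀ : LnT F → ℕ → MvPolynomial (Option (Fin m)) ℝ)
    (H₁ H₂ : LnT F → MvPolynomial (Option (Fin m)) ℝ) : Prop where
  ch : ChOK F c d (fun _ => D) wb wb e gx A G₀ H₀
  cl0 : ∀ ω, A ω → ∀ l < d, G₀ (ptr F J ω) l = H₀ (slam F wb ω) l
  cl1 : ∀ ω, A ω → G₁ (ptr F J ω) = H₁ (slam F W ω)
  cl2 : ∀ ω, A ω → G₂ (ptr F J ω) = H₂ (slam F Wa ω)
  vv : ∀ ω, A ω → v ω = vL (slam F W ω)
  vZ : ∀ ω ω', A ω → A ω' → v ω = v ω' → F.Z ω = F.Z ω'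

/-- The closed part of the record of the ball. -/
noncomputable def zcF {V V' : Type} (F : Fam m J) (d : ℕ) (v : F.Ω → V) (v' : F.Ω → V')
    (G₀ : PtT F → ℕ → MvPolynomial (Option (Fin m)) ℝ)
    (G₁ G₂ : PtT F → MvPolynomial (Option (Fin m)) ℝ) (ω : F.Ω) :
    (V' × MvPolynomial (Option (Fin m)) ℝ) × KwT m V :=
  ((v' ω, G₂ (ptr F J ω)), kwF F d v G₀ G₁ ω)

/-- **A record which is free of the velocity.** -/
theorem free_use {Ω α β γ δ : Type} [Fintype Ω] {p : Ω → ℝ} (hp : ∀ ω, 0 ≤ p ω) (U : Ω → α)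
    (z2 : Ω → β) (c : Ω → γ) (X : Ω → δ) {κ₁ κ₂ : ℝ}
    (h1 : CH p z2 c ≤ CH p z2 (fun ω => (U ω, c ω)) + κ₁)
    (h2 : CH p X (fun ω => (z2 ω, c ω)) ≤ κ₂) : CH p U c ≤ CH p U X + (κ₁ + κ₂) := by
  have h3 := inf_symm hp U z2 c
  have h4 := CH_le_add hp U X (fun ω => (z2 ω, c ω))
  have h5 : CH p U (fun ω => (X ω, (z2 ω, c ω))) ≤ CH p U X :=
    CH_mono_cond hp fun ω ω' _ _ hh => (Prod.ext_iff.mp hh).1
  linarith

/-- Fewer digits of a vector of floors. -/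
theorem fl_div {x : ℝ} {n k : ℕ} : ⌊(2 : ℝ) ^ n * x⌋ = ⌊(2 : ℝ) ^ (n + k) * x⌋ / (2 ^ k : ℕ) := by
  have e : (2 : ℝ) ^ n * x = 2 ^ (n + k) * x / ((2 ^ k : ℕ) : ℝ) := by
    push_cast
    rw [eq_div_iff (by positivity), pow_add]
    ring
  rw [e, Int.floor_div_natCast]

section law

variable {F : Fam m J} {q : F.Ω → ℝ} {A : F.Ω → Prop} {c : ℕ → Fin m} {s : ℕ → ℕ}
  {d D e M wb W Wa Q k : ℕ} {gx : ℕ → ℕ} {qe : Fin d → ℕ} {V V' V₂ : Type} {v : F.Ω → V}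
  {vL : LnT F → V} {v' : F.Ω → V'} {z2 : F.Ω → V₂}
  {G₀ : PtT F → ℕ → MvPolynomial (Option (Fin m)) ℝ}
  {G₁ G₂ : PtT F → MvPolynomial (Option (Fin m)) ℝ}
  {H₀ : LnT F → ℕ → MvPolynomial (Option (Fin m)) ℝ}
  {H₁ H₂ : LnT F → MvPolynomial (Option (Fin m)) ℝ}

/-- The height over the frame. -/
theorem hT_eq (hW : W ≤ J) (i : Fin d) (ω : F.Ω) :
    (hL c s d W (trn d (G₀ (ptr F J ω))) (slam F W ω) (some i)).eval (rt F W ω) =
      2 ^ s i * ojet F (c i) 0 (G₀ (ptr F J ω) i) ω := by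
  have h := hL_jet F hW c s d (trn d (G₀ (ptr F J ω))) i 0 ω
  rw [Function.iterate_zero, id_eq, pow_zero, one_mul] at h
  rw [h]
  unfold trn
  rw [if_pos i.2]

/-- The velocity over the frame. -/
theorem hv_eq (hW : W ≤ J) (i : Fin d) (ω : F.Ω) :
    (Polynomial.derivative (hL c s d W (trn d (G₀ (ptr F J ω))) (slam F W ω) (some i))).eval
      (rt F W ω) = 2 ^ s i * (1 / 2 ^ W * ojet F (c i) 1 (G₀ (ptr F J ω) i) ω) := by
  have h := hL_jet F hW c s d (trn d (G₀ (ptr F J ω))) i 1 ω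
  rw [Function.iterate_one, pow_one] at h
  rw [h]
  unfold trn
  rw [if_pos i.2]

/-- The record of the ball knows the time, the side information and the record of the window. -/
theorem kz_det (hqA : ∀ ω, 0 < q ω → A ω)
    (I : TlI F A c d D e M gx wb W Wa v vL v' G₀ G₁ G₂ H₀ H₁ H₂) :
    Det q (kaF F c s d W Q v G₀ G₁) (fun ω => (v ω, F.W ω)) ∧
      Det q (kzF F c s d W Q v v' G₀ G₁ G₂) (kaF F c s d W Q v G₀ G₁) := by
  refine ⟨fun ω ω' hω hω' hh => ?_, fun ω ω' _ _ hh => (Prod.ext_iff.mp hh).2⟩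
  unfold kaF kwF at hh
  simp only [Prod.mk.injEq] at hh
  have h1 := I.vZ ω ω' (hqA ω hω) (hqA ω' hω') hh.1.1
  exact Prod.ext hh.1.1 (Prod.ext hh.2.1 h1)

/-- The record of the ball from its closed part, the time and the position. -/
theorem kz_of (q : F.Ω → ℝ) (c : ℕ → Fin m) (s : ℕ → ℕ) (d W Q k : ℕ) (v : F.Ω → V)
    (v' : F.Ω → V') (G₀ : PtT F → ℕ → MvPolynomial (Option (Fin m)) ℝ)
    (G₁ G₂ : PtT F → MvPolynomial (Option (Fin m)) ℝ) :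
    Det q (fun ω => ((fun i : Fin d => ⌊(2 : ℝ) ^ (Q + k) *
      (hL c s d W (trn d (G₀ (ptr F J ω))) (slam F W ω) (some i)).eval (rt F W ω)⌋),
      (zcF F d v v' G₀ G₁ G₂ ω, F.W ω))) (kzF F c s d W Q v v' G₀ G₁ G₂) := by
  intro ω ω' hω hω' hh
  unfold zcF at hh
  simp only [Prod.mk.injEq] at hh
  obtain ⟨h1, ⟨⟨h2, h3⟩, h4⟩, h5⟩ := hh
  have h7 : F.T ω = F.T ω' := (Prod.ext_iff.mp h5).1
  unfold kzF kaF
  rw [h2, h3, h4, h7]
  have h6 : crF F c s d W Q G₀ ω = crF F c s d W Q G₀ ω' := by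
    funext i
    unfold crF cL
    rw [fl_div (k := k), fl_div (k := k) (x := (hL c s d W (trn d (G₀ (ptr F J ω'))) (slam F W ω')
      (some i)).eval (rt F W ω'))]
    rw [congrFun h1 i]
  rw [h6]

/-- **The fields `fr` and `full`** from the law level. -/
theorem tl_law (D d : ℕ) : ∃ C : ℕ, 1 ≤ C ∧ ∀ {m J : ℕ} {F : Fam m J} {q : F.Ω → ℝ}
    {A : F.Ω → Prop} {c : ℕ → Fin m} {s : ℕ → ℕ} {e M wb W Wa Q k : ℕ} {gx : ℕ → ℕ}
    {qe : Fin d → ℕ} {V V' V₂ : Type} {v : F.Ω → V} {vL : LnT F → V} {v' : F.Ω → V'}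
    {z2 : F.Ω → V₂} {G₀ : PtT F → ℕ → MvPolynomial (Option (Fin m)) ℝ}
    {G₁ G₂ : PtT F → MvPolynomial (Option (Fin m)) ℝ}
    {H₀ : LnT F → ℕ → MvPolynomial (Option (Fin m)) ℝ}
    {H₁ H₂ : LnT F → MvPolynomial (Option (Fin m)) ℝ} {P₁ P₂ : Fin d → ℝ} {x δ : ℝ}
    {f : ℕ → ℝ} {κ₁ κ₂ κ₃ κ₄ : ℝ}, IsLaw q → (∀ ω, 0 < q ω → A ω) →
    Set.InjOn c (Set.Iio d) → wb ≤ W → W ≤ J → 1 ≤ x →
    TlI F A c d D e M gx wb W Wa v vL v' G₀ G₁ G₂ H₀ H₁ H₂ → (∀ l < d, gx l ≤ M) →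
    e + M + C ≤ J → (∀ i < d, C + e + M + (s i + Q + k) ≤ J + gx i) →
    (∀ i < d, s i + Q + k ≤ J) →
    (∀ ω, 0 < q ω → ∀ i : Fin d,
      |(hL c s d W (trn d (G₀ (ptr F J ω))) (slam F W ω) (some i)).eval (rt F W ω) -
        (hL c s d W (trn d (G₀ (ptr F J ω))) (slam F W ω) (some i)).eval 0 - rt F W ω *
        (Polynomial.derivative (hL c s d W (trn d (G₀ (ptr F J ω))) (slam F W ω)
          (some i))).eval (rt F W ω)| ≤ δ) →
    (∀ ω, 0 < q ω → ∀ i : Fin d,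
      |(Polynomial.derivative (hL c s d W (trn d (G₀ (ptr F J ω))) (slam F W ω)
          (some i))).eval (rt F W ω) -
        (Polynomial.derivative (hL c s d W (trn d (G₀ (ptr F J ω))) (slam F W ω)
          (some i))).eval 0| ≤ δ) → 2 ^ (Q + k) * δ ≤ 1 → (∀ i, 2 ^ qe i * δ ≤ 1) →
    (∀ i : Fin d, (2 : ℝ) ^ (Q + k) ≤ x * 2 ^ (P₂ i - s i + W)) →
    (∀ i : Fin d, (2 : ℝ) ^ qe i ≤ x * 2 ^ (P₂ i - s i + W)) →
    (∀ i : Fin d, (2 : ℝ) ^ qe i ≤ x * 2 ^ (P₁ i - s i + W)) →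
    (∀ i : Fin d, (2 : ℝ) ^ (P₁ i - s i + W) ≤ x * 2 ^ qe i) →
    (∀ i < d, f i ≤ CH q (fun ω => F.X J ω (c i))
      (fun ω => ((fun l : Fin i => F.X J ω (c l)), (zcF F d v v' G₀ G₁ G₂ ω, F.W ω)))) →
    CH q z2 (fun ω => (v ω, F.W ω)) ≤ CH q z2 (fun ω =>
      ((fun i : Fin d => ⌊(2 : ℝ) ^ P₁ i * ojet F (c i) 1 (G₀ (ptr F J ω) i) ω⌋),
        (v ω, F.W ω))) + κ₁ →
    CH q z2 (fun ω => (v ω, F.W ω)) ≤ CH q z2 (fun ω =>
      ((fun i : Fin d => ⌊(2 : ℝ) ^ P₂ i * ojet F (c i) 1 (G₀ (ptr F J ω) i) ω⌋),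
        (v ω, F.W ω))) + κ₁ →
    CH q (fun ω (i : Fin d) => ⌊(2 : ℝ) ^ (s i + Q + k) *
      ojet F (c i) 0 (G₀ (ptr F J ω) i) ω⌋) (fun ω => (z2 ω, F.W ω)) ≤ κ₂ →
    CH q (zcF F d v v' G₀ G₁ G₂) z2 ≤ κ₃ →
    CH q (fun ω (i : Fin d) => ⌊(2 : ℝ) ^ (s i + Q) *
      ojet F (c i) 0 (G₀ (ptr F J ω) i) ω⌋) (fun ω => (v' ω, F.W ω)) ≤ κ₄ →
    CH q (fun ω => eL c s d W qe (frH F d (W - wb) H₀ (slam F W ω)) (slam F W ω))
        (fun ω => (v ω, F.W ω)) ≤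
      CH q (fun ω => eL c s d W qe (frH F d (W - wb) H₀ (slam F W ω)) (slam F W ω))
        (kzF F c s d W Q v v' G₀ G₁ G₂) + (κ₁ + κ₂ + κ₃ + 2 * (d * Real.log (6 * x + 9))) ∧
    ∑ i ∈ range d, (f i - ((J : ℝ) - (s i + Q + k : ℕ)) * Real.log 2) -
        (κ₁ + κ₂ + κ₃ + κ₄ + 4 * (d * Real.log (6 * x + 9))) ≤
      CH q (xd k (slam F W) (fun L => xL c s d W Q (frH F d (W - wb) H₀ L) L))
        (fun ω => (kzF F c s d W Q v v' G₀ G₁ G₂ ω,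
          eL c s d W qe (frH F d (W - wb) H₀ (slam F W ω)) (slam F W ω))) := by
  obtain ⟨C, hC, hpf⟩ := pos_full D d
  refine ⟨C, hC, ?_⟩
  intro m J F q A c s e M wb W Wa Q k gx qe V V' V₂ v vL v' z2 G₀ G₁ G₂ H₀ H₁ H₂ P₁ P₂ x δ f κ₁
    κ₂ κ₃ κ₄ hq hqA hc hwb hW hx I hM hJ hN hNJ n1 n2 d1 d2 a1 a2 a3 a4 hf hf1 hf2 hx2 hz2 hcr
  have hn := hq.nonneg
  obtain ⟨hT, hhT⟩ : ∃ hT : F.Ω → Fin d → ℝ, hT = fun ω i =>
    (hL c s d W (trn d (G₀ (ptr F J ω))) (slam F W ω) (some i)).eval (rt F W ω) := ⟨_, rfl⟩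
  obtain ⟨h0, hh0⟩ : ∃ hT : F.Ω → Fin d → ℝ, hT = fun ω i =>
    (hL c s d W (trn d (G₀ (ptr F J ω))) (slam F W ω) (some i)).eval 0 := ⟨_, rfl⟩
  obtain ⟨hv, hhv⟩ : ∃ hT : F.Ω → Fin d → ℝ, hT = fun ω i => (Polynomial.derivative
    (hL c s d W (trn d (G₀ (ptr F J ω))) (slam F W ω) (some i))).eval (rt F W ω) := ⟨_, rfl⟩
  obtain ⟨hv0, hhv0⟩ : ∃ hT : F.Ω → Fin d → ℝ, hT = fun ω i => (Polynomial.derivative
    (hL c s d W (trn d (G₀ (ptr F J ω))) (slam F W ω) (some i))).eval 0 := ⟨_, rfl⟩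
  obtain ⟨E, hE⟩ : ∃ E : F.Ω → Fin d → ℤ, E = fun ω =>
    eL c s d W qe (frH F d (W - wb) H₀ (slam F W ω)) (slam F W ω) := ⟨_, rfl⟩
  obtain ⟨Z, hZ⟩ : ∃ Z : F.Ω → KzT m d V V', Z = kzF F c s d W Q v v' G₀ G₁ G₂ := ⟨_, rfl⟩
  obtain ⟨xT, hxT⟩ : ∃ xT : F.Ω → Fin d → ℤ, xT = fun ω i => ⌊(2 : ℝ) ^ (Q + k) * hT ω i⌋ :=
    ⟨_, rfl⟩
  obtain ⟨U₁, hU₁⟩ : ∃ U : F.Ω → Fin d → ℤ, U = fun ω (i : Fin d) =>
    ⌊(2 : ℝ) ^ P₁ i * ojet F (c i) 1 (G₀ (ptr F J ω) i) ω⌋ := ⟨_, rfl⟩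
  obtain ⟨U₂, hU₂⟩ : ∃ U : F.Ω → Fin d → ℤ, U = fun ω (i : Fin d) =>
    ⌊(2 : ℝ) ^ P₂ i * ojet F (c i) 1 (G₀ (ptr F J ω) i) ω⌋ := ⟨_, rfl⟩
  have hpw : ∀ (P : ℝ) (i : Fin d) (ω : F.Ω), (2 : ℝ) ^ (P - s i + W) * hv ω i =
      2 ^ P * ojet F (c i) 1 (G₀ (ptr F J ω) i) ω := by
    intro P i ω
    rw [hhv]
    simp only
    rw [hv_eq hW, Real.rpow_add (by norm_num), Real.rpow_sub (by norm_num), Real.rpow_natCast,
      Real.rpow_natCast]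
    field_simp
  have hxe : xT = fun ω (i : Fin d) => ⌊(2 : ℝ) ^ (s i + Q + k) *
      ojet F (c i) 0 (G₀ (ptr F J ω) i) ω⌋ := by
    rw [hxT, hhT]
    funext ω i
    simp only
    rw [hT_eq hW, ← mul_assoc, ← pow_add, show Q + k + s i = s i + Q + k by ring]
  have hfr : ∀ ω, 0 < q ω → frH F d (W - wb) H₀ (slam F W ω) = trn d (G₀ (ptr F J ω)) := by
    intro ω hω
    unfold frH trn
    funext l
    rw [co_slam F hwb hW ω]
    by_cases hl : l < d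
    · rw [if_pos hl, if_pos hl, I.cl0 ω (hqA ω hω) l hl]
    · rw [if_neg hl, if_neg hl]
  have hEe : ∀ ω, 0 < q ω → ∀ i, E ω i = ⌊2 ^ qe i * hv0 ω i⌋ := by
    intro ω hω i
    rw [hE, hhv0]
    simp only
    rw [hfr ω hω]
    rfl
  obtain ⟨kd1, kd2⟩ := kz_det (s := s) (Q := Q) hqA I
  rw [← hZ] at kd2
  have kd3 := kz_of (F := F) (J := J) q c s d W Q k v v' G₀ G₁ G₂
  have hcc : ∀ ω, crF F c s d W Q G₀ ω = fun i : Fin d => ⌊(2 : ℝ) ^ (s i + Q) *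
      ojet F (c i) 0 (G₀ (ptr F J ω) i) ω⌋ := by
    intro ω
    funext i
    unfold crF cL
    rw [hT_eq hW, ← mul_assoc, ← pow_add, Nat.add_comm Q]
  obtain ⟨L, hLL⟩ : ∃ L : ℝ, L = d * Real.log (6 * x + 9) := ⟨_, rfl⟩
  have hlog : ∀ t : ℝ, 0 < t → t ≤ 6 * x + 9 → (d : ℝ) * Real.log t ≤ L := by
    intro t ht htx
    rw [hLL]
    exact mul_le_mul_of_nonneg_left (Real.log_le_log ht htx) (Nat.cast_nonneg d)
  -- the records given the last record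
  have hXZ : CH q (fun ω => (xT ω, Z ω)) (fun ω => (z2 ω, (v ω, F.W ω))) ≤ κ₂ + κ₃ := by
    have e1 := CH_chain hn Z xT (fun ω => (z2 ω, (v ω, F.W ω)))
    have e2 : CH q (fun ω => (xT ω, Z ω)) (fun ω => (z2 ω, (v ω, F.W ω))) =
        CH q (fun ω => (Z ω, xT ω)) (fun ω => (z2 ω, (v ω, F.W ω))) := by
      refine CH_congr hn ?_ ?_ (fun _ _ _ _ h => h) (fun _ _ _ _ h => h) <;>
      · intro ω ω' _ _ hh
        simp only [Prod.mk.injEq] at hh ⊢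
        tauto
    have e3 : CH q xT (fun ω => (z2 ω, (v ω, F.W ω))) ≤ CH q xT (fun ω => (z2 ω, F.W ω)) := by
      refine CH_mono_cond hn fun ω ω' _ _ hh => ?_
      simp only [Prod.mk.injEq] at hh ⊢
      exact ⟨hh.1, hh.2.2⟩
    have e4 : CH q Z (fun ω => (xT ω, (z2 ω, (v ω, F.W ω)))) ≤
        CH q (zcF F d v v' G₀ G₁ G₂) (fun ω => (xT ω, (z2 ω, (v ω, F.W ω)))) := by
      refine CH_mono_left hn fun ω ω' hω hω' hh => ?_
      simp only [Prod.mk.injEq] at hh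
      rw [hZ]
      refine kd3 ω ω' hω hω' ?_
      have h3 := hh.2.1
      rw [hxT, hhT] at h3
      exact Prod.ext h3 (Prod.ext hh.1 hh.2.2.2.2)
    have e5 : CH q (zcF F d v v' G₀ G₁ G₂) (fun ω => (xT ω, (z2 ω, (v ω, F.W ω)))) ≤
        CH q (zcF F d v v' G₀ G₁ G₂) z2 := by
      refine CH_mono_cond hn fun ω ω' _ _ hh => ?_
      simp only [Prod.mk.injEq] at hh
      exact hh.2.1
    rw [← hxe] at hx2
    linarith
  have hZ2 : CH q Z (fun ω => (z2 ω, (v ω, F.W ω))) ≤ κ₂ + κ₃ :=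
    (CH_mono_left hn fun ω ω' _ _ hh => (Prod.ext_iff.mp (Prod.ext_iff.mp hh).1).2).trans hXZ
  rw [← hE, ← hZ, ← hLL]
  constructor
  · -- the code of the velocity
    have d3 : ∀ i : Fin d, (2 : ℝ) ^ (P₁ i - s i + W) * δ ≤ x := by
      intro i
      have h2 := a4 i
      rcases le_or_gt 0 δ with hδ | hδ
      · calc (2 : ℝ) ^ (P₁ i - s i + W) * δ ≤ x * 2 ^ qe i * δ :=
              mul_le_mul_of_nonneg_right h2 hδ
            _ = x * (2 ^ qe i * δ) := by ring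
            _ ≤ x * 1 := mul_le_mul_of_nonneg_left (d2 i) (by linarith)
            _ = x := mul_one x
      · have h3 : (0 : ℝ) < 2 ^ (P₁ i - s i + W) := Real.rpow_pos_of_pos (by norm_num) _
        have h4 : (2 : ℝ) ^ (P₁ i - s i + W) * δ ≤ 0 := mul_nonpos_of_nonneg_of_nonpos h3.le hδ.le
        linarith
    obtain ⟨v1, v2⟩ := vel_code hq (qe := qe) (p := fun i => P₁ i - s i + W) (x := x) (δ := δ)
      hv hv0 E hEe (by rw [hhv, hhv0]; exact n2) d2 d3 a3 a4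
    have hUe : (fun ω (i : Fin d) => ⌊(2 : ℝ) ^ (P₁ i - s i + W) * hv ω i⌋) = U₁ := by
      rw [hU₁]
      funext ω i
      rw [hpw]
    rw [hUe] at v1 v2
    have g1 := free_use hn U₁ z2 (fun ω => (v ω, F.W ω)) Z (by rw [hU₁]; exact hf1) hZ2
    have g3 := CH_le_add hn E U₁ (fun ω => (v ω, F.W ω))
    have g4 : CH q E (fun ω => (U₁ ω, (v ω, F.W ω))) ≤ CH q E U₁ :=
      CH_mono_cond hn fun ω ω' _ _ hh => (Prod.ext_iff.mp hh).1
    have g5 := CH_le_add hn U₁ E Z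
    have g6 : CH q U₁ (fun ω => (E ω, Z ω)) ≤ CH q U₁ E :=
      CH_mono_cond hn fun ω ω' _ _ hh => (Prod.ext_iff.mp hh).1
    have g7 := v1.trans (hlog _ (by linarith) (by linarith))
    have g8 := v2.trans (hlog _ (by linarith) (by linarith))
    linarith
  · have hUe : (fun ω (i : Fin d) => ⌊(2 : ℝ) ^ (P₂ i - s i + W) * hv ω i⌋) = U₂ := by
      rw [hU₂]
      funext ω i
      rw [hpw]
    have g1 := full_law hq (Q := Q) (k := k) (qe := qe) (p := fun i => P₂ i - s i + W) (x := x)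
      (δ := δ) h0 hT hv hv0 (rt F W) Z E (fun ω _ => rt_mem F W ω) (fun ω ω' hω hω' hh => by
        have h1 : F.T ω = F.T ω' := by
          rw [hZ] at hh
          unfold kzF kaF at hh
          simp only [Prod.mk.injEq] at hh
          exact hh.2.2.1
        unfold rt
        rw [h1]) (fun ω ω' hω hω' hh => by
        have h1 : crF F c s d W Q G₀ ω = crF F c s d W Q G₀ ω' := by
          rw [hZ] at hh
          unfold kzF kaF at hh
          simp only [Prod.mk.injEq] at hh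
          exact hh.2.2.2
        rw [hhT]
        exact h1) hEe (by rw [hhT, hh0, hhv]; exact n1) (by rw [hhv, hhv0]; exact n2) d1 d2 a1 a2
    have e9 : (fun ω => ((fun i : Fin d => ⌊(2 : ℝ) ^ (Q + k) * hT ω i⌋), Z ω)) =
        fun ω => (xT ω, Z ω) := by
      rw [hxT]
    rw [hUe, e9, ← hxT] at g1
    have g2 : CH q (fun ω i => ⌊2 ^ k * Int.fract (2 ^ Q * h0 ω i)⌋₊) (fun ω => (Z ω, E ω)) ≤
        CH q (xd k (slam F W) (fun L => xL c s d W Q (frH F d (W - wb) H₀ L) L))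
          (fun ω => (Z ω, E ω)) := by
      refine CH_mono_left hn fun ω ω' hω hω' hh => ?_
      have h1 := (Prod.ext_iff.mp hh).1
      unfold xd xL at h1
      simp only at h1
      rw [hfr ω hω, hfr ω' hω'] at h1
      rw [hh0]
      exact h1
    have g3 := free_use hn U₂ z2 (fun ω => (v ω, F.W ω)) (fun ω => (xT ω, Z ω))
      (by rw [hU₂]; exact hf2) hXZ
    have g4 : CH q U₂ Z ≤ CH q U₂ (fun ω => (v ω, F.W ω)) :=
      CH_mono_cond hn fun ω ω' hω hω' hh => kd1 ω ω' hω hω' (kd2 ω ω' hω hω' hh)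
    have g5 := hpf hq hqA hc I.ch (N := fun i => s i + Q + k) hM hJ hN hNJ
      (z := zcF F d v v' G₀ G₁ G₂) (fun ω ω' _ _ hh l hl => by
        unfold zcF kwF at hh
        simp only [Prod.mk.injEq] at hh
        have h1 := congrFun hh.2.2.1 l
        unfold trn at h1
        rw [if_pos hl, if_pos hl] at h1
        exact h1) hf
    rw [← hxe] at g5
    have g6 := CH_le_add hn xT (crF F c s d W Q G₀)
      (fun ω => (zcF F d v v' G₀ G₁ G₂ ω, F.W ω))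
    have g7 : CH q (crF F c s d W Q G₀) (fun ω => (zcF F d v v' G₀ G₁ G₂ ω, F.W ω)) ≤ κ₄ := by
      have h1 : crF F c s d W Q G₀ = fun ω (i : Fin d) => ⌊(2 : ℝ) ^ (s i + Q) *
          ojet F (c i) 0 (G₀ (ptr F J ω) i) ω⌋ := funext hcc
      rw [← h1] at hcr
      refine le_trans (CH_mono_cond hn fun ω ω' _ _ hh => ?_) hcr
      unfold zcF at hh
      simp only [Prod.mk.injEq] at hh ⊢
      exact ⟨hh.1.1.1, hh.2⟩
    have g8 : CH q xT (fun ω => (crF F c s d W Q G₀ ω, (zcF F d v v' G₀ G₁ G₂ ω, F.W ω))) ≤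
        CH q xT Z := by
      refine CH_mono_cond hn fun ω ω' _ _ hh => ?_
      unfold zcF at hh
      simp only [Prod.mk.injEq] at hh
      obtain ⟨h1, ⟨⟨h2, h3⟩, h4⟩, h5⟩ := hh
      have h7 : F.T ω = F.T ω' := (Prod.ext_iff.mp h5).1
      rw [hZ]
      unfold kzF kaF
      rw [h1, h2, h3, h4, h7]
    have g9 := hlog (2 * x + 9) (by linarith) (by linarith)
    have g10 := hlog 9 (by norm_num) (by linarith)
    have e10 : (fun ω => (Z ω, eL c s d W qe (frH F d (W - wb) H₀ (slam F W ω))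
        (slam F W ω))) = fun ω => (Z ω, E ω) := by
      rw [hE]
    rw [e10]
    linarith

end law

end Pool.LA91
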