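import Pool.Agent.H91.D2.Tlc5

/-!
# The entropy fields of `TL` in a class

`TlN`: the numbers of the letters. `TlO`: the entropy fields. `tl_cls`: at almost every critical
point, for infinitely many scales, the entropy fields of `TL` hold for all closed frames, charts and
records with these numbers.
-/

set_option autoImplicit false

namespace Pool.LA91

open Finset Real MvPolynomial
open Pool.Agent.H49.Ent Pool.Agent.H32.Dense Pool.STK Pool.KA Pool.KSAT Pool.K2S Pool.PB Pool.GEN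
open Pool.S6C Pool.RCD Pool.D2R Pool.CHT Pool.D2G30 Pool.V1E
open Pool.PB.Trl (rt rt_mem t_rt)
open Pool.GRD (LbP)

variable {m : ℕ}

/-- A function with derivative `0` is flat in small intervals. -/
theorem flat_k {f : ℝ → ℝ} {g : ℝ} (hd : HasDerivAt f 0 g) {φ C : ℝ} (hφ : 0 < φ) (hC : 0 ≤ C) :
    ∃ K : ℕ, ∀ k ≥ K, ∀ v, |v - g| ≤ C * (1 / 2) ^ k → |f v - f g| ≤ φ * (1 / 2) ^ k := by
  have hC1 : 0 < C + 1 := by positivity
  rw [hasDerivAt_iff_isLittleO] at hd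
  have h3 := hd.def (show 0 < φ / (C + 1) by positivity)
  rw [Metric.eventually_nhds_iff] at h3
  obtain ⟨δ', hδ', h3⟩ := h3
  obtain ⟨K, hK⟩ := exists_pow_lt_of_lt_one (show 0 < δ' / (C + 1) by positivity)
    (show (1 / 2 : ℝ) < 1 by norm_num)
  refine ⟨K, fun k hk v hv => ?_⟩
  obtain ⟨r, hr⟩ : ∃ r : ℝ, r = (1 / 2) ^ k := ⟨_, rfl⟩
  have hr0 : 0 < r := by rw [hr]; positivity
  have hrK : r < δ' / (C + 1) := by
    rw [hr]
    exact lt_of_le_of_lt (pow_le_pow_of_le_one (by norm_num) (by norm_num) hk) hK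
  rw [lt_div_iff₀ hC1] at hrK
  rw [← hr] at hv ⊢
  have h5 : |v - g| < δ' := by
    refine hv.trans_lt ?_
    linarith
  have h4 := h3 (y := v) (by rw [Real.dist_eq]; exact h5)
  have h6 : |f v - f g| ≤ φ / (C + 1) * |v - g| := by simpa using h4
  refine h6.trans ?_
  calc φ / (C + 1) * |v - g| ≤ φ / (C + 1) * (C * r) :=
        mul_le_mul_of_nonneg_left hv (by positivity)
    _ ≤ φ / (C + 1) * ((C + 1) * r) := by
        refine mul_le_mul_of_nonneg_left ?_ (by positivity)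
        linarith
    _ = φ * r := by field_simp

/-- Finitely many functions. -/
theorem flat_kd {d : ℕ} {f : ℕ → ℝ → ℝ} {g : ℝ} (hd : ∀ i < d, HasDerivAt (f i) 0 g)
    {φ C : ℝ} (hφ : 0 < φ) (hC : 0 ≤ C) : ∃ K : ℕ, ∀ k ≥ K, ∀ i < d, ∀ v,
      |v - g| ≤ C * (1 / 2) ^ k → |f i v - f i g| ≤ φ * (1 / 2) ^ k := by
  have h1 : ∀ i : Fin d, ∃ K : ℕ, ∀ k ≥ K, ∀ v, |v - g| ≤ C * (1 / 2) ^ k →
      |f i v - f i g| ≤ φ * (1 / 2) ^ k := fun i => flat_k (hd i i.2) hφ hC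
  choose n hn using h1
  refine ⟨Finset.univ.sup n, fun k hk i hi => hn ⟨i, hi⟩ k ?_⟩
  exact (Finset.le_sup (f := n) (Finset.mem_univ _)).trans hk

/-- A power of two against a real power. -/
theorem pow_le_x {n : ℕ} {p e : ℝ} (h : (n : ℝ) ≤ p + e) : (2 : ℝ) ^ n ≤ 2 ^ e * 2 ^ p := by
  rw [← Real.rpow_natCast, ← Real.rpow_add (by norm_num)]
  exact Real.rpow_le_rpow_of_exponent_le (by norm_num) (by linarith)

theorem le_x_pow {n : ℕ} {p e : ℝ} (h : p ≤ n + e) : (2 : ℝ) ^ p ≤ 2 ^ e * 2 ^ n := by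
  rw [← Real.rpow_natCast, ← Real.rpow_add (by norm_num)]
  exact Real.rpow_le_rpow_of_exponent_le (by norm_num) (by linarith)

/-- **The staircase** of the digits of the velocities. -/
def StE (d : ℕ) (sh : ℝ) (sn : ℕ → ℝ → ℝ) (g : ℝ) (C : ℕ) (σ : ℚ) (k : ℕ) (P : Fin d → ℚ) :
    Prop :=
  (∀ i, nE d sh sn i g ≤ P i) ∧ (∀ i, (P i : ℝ) ≤ nE d sh sn i g + C * (1 / 2) ^ k) ∧
    ∀ l i : Fin d, l < i →
      (P i : ℝ) - nE d sh sn i g + 2 * σ * (1 / 2) ^ k ≤ P l - nE d sh sn l g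

/-- **The numbers of the letters.** The windows are `b`, `w`, `a`, the last window is `o`; errors
`h`, precision of the frame `e₀`. -/
structure TlN (J d C₁ : ℕ) (h e₀ : ℝ) (sh : ℝ) (sn : ℕ → ℝ → ℝ) (P₁ P₂ : Fin d → ℝ)
    (b w a o : ℝ) (s gx : ℕ → ℕ) (e M Q n : ℕ) (qe : Fin d → ℕ) : Prop where
  hs : ∀ i < d, |(s i : ℝ) - sn i w * J| ≤ h
  hQ : |(Q : ℝ) - (a - w) * J| ≤ h
  hn : (Q : ℝ) + n ≤ (o - w) * J + h
  hqe : ∀ i : Fin d, |(qe i : ℝ) + s i - (⌊(w + sh) * J⌋₊ : ℕ) - P₁ i * J| ≤ h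
  hQe : ∀ i : Fin d, (Q : ℝ) ≤ qe i + h
  hP : ∀ i : Fin d, (Q : ℝ) + n + s i ≤ P₂ i * J + (⌊(w + sh) * J⌋₊ : ℕ) + h
  hPe : ∀ i : Fin d, (qe i : ℝ) + s i ≤ P₂ i * J + (⌊(w + sh) * J⌋₊ : ℕ) + h
  hgx : ∀ i < d, (sn i b - e₀) * J ≤ gx i
  hM : ∀ i < d, gx i ≤ M
  hJ : e + M + C₁ ≤ J
  hN : ∀ i < d, C₁ + e + M + (s i + Q + n) ≤ J + gx i

/-- **The entropy fields of `TL`**, errors at most `h`. -/
structure TlO {J : ℕ} (F : Fam m J) (q : F.Ω → ℝ) (c : ℕ → Fin m) (s : ℕ → ℕ)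
    (d wb W Q n : ℕ) (qe : Fin d → ℕ) {V V' : Type} (v : F.Ω → V) (vL : LnT F → V)
    (v' : F.Ω → V') (G₀ : PtT F → ℕ → MvPolynomial (Option (Fin m)) ℝ)
    (G₁ G₂ : PtT F → MvPolynomial (Option (Fin m)) ℝ)
    (H₀ : LnT F → ℕ → MvPolynomial (Option (Fin m)) ℝ)
    (H₁ : LnT F → MvPolynomial (Option (Fin m)) ℝ) (h : ℝ) : Prop where
  Tfull : Real.log ((2 ^ (J - W) : ℕ) : ℝ) - h ≤ CH q (twF F W) (slam F W)
  afew : CH q (kaF F c s d W Q v G₀ G₁)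
    (fun ω => (ctF F c s d W (W - wb) Q qe H₀ H₁ vL (slam F W ω), twF F W ω)) ≤ h
  fr : CH q (fun ω => eL c s d W qe (frH F d (W - wb) H₀ (slam F W ω)) (slam F W ω))
      (kaF F c s d W Q v G₀ G₁) ≤
    CH q (fun ω => eL c s d W qe (frH F d (W - wb) H₀ (slam F W ω)) (slam F W ω))
      (kzF F c s d W Q v v' G₀ G₁ G₂) + h
  frT : CH q (fun ω => eL c s d W qe (frH F d (W - wb) H₀ (slam F W ω)) (slam F W ω))
      (fun ω => (v ω, F.W ω)) ≤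
    CH q (fun ω => eL c s d W qe (frH F d (W - wb) H₀ (slam F W ω)) (slam F W ω))
      (kzF F c s d W Q v v' G₀ G₁ G₂) + h
  full : d * (n * Real.log 2) - h ≤
    CH q (xd n (slam F W) (fun L => xL c s d W Q (frH F d (W - wb) H₀ L) L))
      (fun ω => (kzF F c s d W Q v v' G₀ G₁ G₂ ω,
        eL c s d W qe (frH F d (W - wb) H₀ (slam F W ω)) (slam F W ω)))

/-- **The paths are straight** in the window, up to `δ`. -/
structure TlS {J : ℕ} (F : Fam m J) (A : F.Ω → Prop) (c : ℕ → Fin m) (s : ℕ → ℕ)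
    (d W Q n : ℕ) (qe : Fin d → ℕ) (G₀ : PtT F → ℕ → MvPolynomial (Option (Fin m)) ℝ)
    (δ : ℝ) : Prop where
  n1 : ∀ ω, A ω → ∀ i : Fin d,
    |(hL c s d W (trn d (G₀ (ptr F J ω))) (slam F W ω) (some i)).eval (rt F W ω) -
      (hL c s d W (trn d (G₀ (ptr F J ω))) (slam F W ω) (some i)).eval 0 - rt F W ω *
      (Polynomial.derivative (hL c s d W (trn d (G₀ (ptr F J ω))) (slam F W ω)
        (some i))).eval (rt F W ω)| ≤ δ
  n2 : ∀ ω, A ω → ∀ i : Fin d,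
    |(Polynomial.derivative (hL c s d W (trn d (G₀ (ptr F J ω))) (slam F W ω)
        (some i))).eval (rt F W ω) -
      (Polynomial.derivative (hL c s d W (trn d (G₀ (ptr F J ω))) (slam F W ω)
        (some i))).eval 0| ≤ δ
  d1 : 2 ^ (Q + n) * δ ≤ 1
  d2 : ∀ i, 2 ^ qe i * δ ≤ 1
  jet : ∀ ω, A ω → ∀ i < d, |ojet F (c i) 1 (G₀ (ptr F J ω) i) ω| ≤ 2 ^ J

end Pool.LA91
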