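import Pool.Agent.H91.D2.Tlc7

/-!
# The entropy fields of `TL` at the critical points of a class

`tl_cls`: at almost every critical point, for infinitely many scales, the entropy fields of `TL`
(`TlO`) hold for all closed frames, charts and records.
-/

set_option autoImplicit false

namespace Pool.LA91

open Finset Real MvPolynomial
open Pool.Agent.H49.Ent Pool.Agent.H32.Dense Pool.STK Pool.KA Pool.KSAT Pool.K2S Pool.PB Pool.GEN
open Pool.S6C Pool.RCD Pool.D2R Pool.CHT Pool.D2G30 Pool.V1E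
open Pool.PB.Trl (rt rt_mem t_rt)
open Pool.GRD (LbP)

variable {m : ℕ}

theorem Mx.mono {α β : ∀ J : ℕ, Fam m J → Type} {f : ∀ (J : ℕ) (F : Fam m J), F.Ω → α J F}
    {g : ∀ (J : ℕ) (F : Fam m J), F.Ω → β J F} {k k' : ℝ} {J : ℕ} {F : Fam m J}
    {A : F.Ω → Prop} {V : Type} {z : F.Ω → V} (h : Mx f g k F A z) (hk : k ≤ k') :
    Mx f g k' F A z :=
  ⟨h.1, fun V' z' hz' => (h.2 V' z' hz').trans
    (mul_le_mul_of_nonneg_right hk (Nat.cast_nonneg J))⟩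

/-- **The entropy fields of `TL`** in a class. -/
theorem tl_cls {S : PCl m} {C₀ : ℝ} (hS : S.Ne)
    (hpos : ∀ (τ : ℝ) (J : ℕ) (F : Fam m J) (A : F.Ω → Prop), S.St τ J F A → 0 < Pe F.p A)
    (htm : TmC S C₀) {c : ℕ → Fin m} {d : ℕ} {sh A B B' : ℝ} {sn : ℕ → ℝ → ℝ}
    (hW : ChW S c d sh sn A B') (hBB : B < B') (hB' : B' + sh ≤ 1) {η : ℚ → ℝ}
    (hη : ∀ w : ℚ, A ≤ w → (w : ℝ) + sh ≤ 1 →
      RNum S (fun J F => ptr F J) (vg ((w : ℝ) + sh)) (η w)) :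
    ∃ S' : PCl m, S'.Ne ∧
      (∀ (τ : ℝ) (J : ℕ) (F : Fam m J) (A : F.Ω → Prop), S'.St τ J F A → S.St τ J F A) ∧
      ∀ᵐ g : ℝ, g ∈ Set.Ioo A B → (∀ i < d, HasDerivAt (fun x => sn i x - x) 0 g) →
      ∀ (C : ℕ) (σ : ℚ), 0 < σ → σ ≤ 1 → ∀ κ : ℝ, 0 < κ → ∃ ε : ℝ, 0 < ε ∧
      ∀ K : ℕ, ∃ k ≥ K, ∀ (P₁ P₂ : Fin d → ℚ) (b w a o : ℚ),
      StE d sh sn g C σ k P₁ → StE d sh sn g C σ k P₂ →
      g - C * (1 / 2) ^ k ≤ b → b ≤ w → w ≤ a → a ≤ o → (o : ℝ) ≤ g + C * (1 / 2) ^ k →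
      ∃ k₂ : ℝ, 0 < k₂ ∧ ∃ e₀ : ℝ, 0 < e₀ ∧ ∀ D : ℕ, ∃ C₁ : ℕ, Bas S' (fun J F A =>
        ∀ (s gx : ℕ → ℕ) (e M Q n : ℕ) (qe : Fin d → ℕ) (V V' : Type) (v : F.Ω → V)
          (vL : LnT F → V) (v' : F.Ω → V')
          (G₀ : PtT F → ℕ → MvPolynomial (Option (Fin m)) ℝ)
          (G₁ G₂ : PtT F → MvPolynomial (Option (Fin m)) ℝ)
          (H₀ : LnT F → ℕ → MvPolynomial (Option (Fin m)) ℝ)
          (H₁ H₂ : LnT F → MvPolynomial (Option (Fin m)) ℝ) (δ : ℝ),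
        Mx (fun J F => ptr F J) (vg (((w + lagE C d k : ℚ) : ℝ) + sh)) k₂ F A v →
        Mx (fun J F => ptr F J) (vg (((a + lagE C d k : ℚ) : ℝ) + sh)) k₂ F A v' →
        TlN J d C₁ (ε * (1 / 2) ^ k * J) e₀ sh sn (fun i => (P₁ i : ℝ)) (fun i => (P₂ i : ℝ)) b
          ((w + lagE C d k : ℚ) : ℝ) ((a + lagE C d k : ℚ) : ℝ) ((o + lagE C d k : ℚ) : ℝ)
          s gx e M Q n qe →
        TlI F A c d D e M gx ⌊((b : ℝ) + sh) * J⌋₊ ⌊(((w + lagE C d k : ℚ) : ℝ) + sh) * J⌋₊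
          ⌊(((a + lagE C d k : ℚ) : ℝ) + sh) * J⌋₊ v vL v' G₀ G₁ G₂ H₀ H₁ H₂ →
        TlS F A c s d ⌊(((w + lagE C d k : ℚ) : ℝ) + sh) * J⌋₊ Q n qe G₀ δ →
        TlO F (Pool.Agent.H49.Ent.cond F.p A True) c s d ⌊((b : ℝ) + sh) * J⌋₊
          ⌊(((w + lagE C d k : ℚ) : ℝ) + sh) * J⌋₊ Q n qe v vL v' G₀ G₁ G₂ H₀ H₁
          (κ * (1 / 2) ^ k * J)) := by
  classical
  obtain ⟨fp, hfp⟩ : ∃ fp : ∀ (J : ℕ) (F : Fam m J), F.Ω → PtT F, fp = fun J F => ptr F J :=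
    ⟨_, rfl⟩
  obtain ⟨yW, hyW⟩ : ∃ yW : ∀ (J : ℕ) (F : Fam m J), F.Ω → ℕ × F.ζ, yW = fun _ F => F.W :=
    ⟨_, rfl⟩
  have hf : ∀ (J : ℕ) (F : Fam m J), ∃ φ : PtT F → PtT F, ∀ ω, ptr F J ω = φ (fp J F ω) := by
    intro J F
    rw [hfp]
    exact ⟨fun x => x, fun _ => rfl⟩
  have hy : Kn ((range 0).image c) 1 1 yW := by
    intro J F
    rw [hyW]
    exact ⟨fun x => (x.1, fun _ => 0, fun _ => 0), fun ω => by simp [Fam.W]⟩
  rw [← hfp] at hη ⊢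
  obtain ⟨S', h1, h2, hfree⟩ := free_E hS hpos htm hW hf hy hBB hB' hη
  have hpos' : ∀ (τ : ℝ) (J : ℕ) (F : Fam m J) (A : F.Ω → Prop), S'.St τ J F A → 0 < Pe F.p A :=
    fun τ J F A h => hpos τ J F A (h2 τ J F A h)
  have hη' : ∀ w : ℚ, A ≤ w → (w : ℝ) + sh ≤ 1 → RNum S' fp (vg ((w : ℝ) + sh)) (η w) :=
    fun w a b => (hη w a b).sub h2
  have htm' : TmC S' C₀ := fun τ J F A hτ h => htm τ J F A hτ (h2 τ J F A h)
  have hW' : ChW S' c d sh sn A B' := hW.sub h2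
  refine ⟨S', h1, h2, ?_⟩
  filter_upwards [hfree] with g hg hgAB hd C σ hσ0 hσ1 κ hκ
  have hd0 : (0 : ℝ) ≤ d := Nat.cast_nonneg d
  have hd1 : (0 : ℝ) < d + 1 := by positivity
  -- the constants
  obtain ⟨ε, hε⟩ : ∃ ε : ℝ, ε = κ / (140 * (d + 1)) := ⟨_, rfl⟩
  have hε0 : 0 < ε := by rw [hε]; positivity
  have hεd : ε * (d + 1) = κ / 140 := by
    rw [hε]
    field_simp
  obtain ⟨φ, hφ⟩ : ∃ φ : ℝ, φ = ε / (10 * (d + 1)) := ⟨_, rfl⟩
  have hφ0 : 0 < φ := by rw [hφ]; positivity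
  have hφd : φ * (d + 1) = ε / 10 := by
    rw [hφ]
    field_simp
  have hφε : φ ≤ ε / 10 := by
    have : φ * 1 ≤ φ * (d + 1) := mul_le_mul_of_nonneg_left (by linarith) hφ0.le
    linarith
  obtain ⟨Cw, hCw⟩ : ∃ Cw : ℝ, Cw = 2 * C + 7 * d + 10 := ⟨_, rfl⟩
  have hCw0 : 0 < Cw := by rw [hCw]; positivity
  refine ⟨ε, hε0, fun K => ?_⟩
  obtain ⟨K₃, hK₃⟩ := flat_kd hd hφ0 hCw0.le
  have hmn : 0 < min ((g - A) / Cw) ((B' - g) / Cw) :=
    lt_min (div_pos (by linarith [hgAB.1]) hCw0) (div_pos (by linarith [hgAB.2]) hCw0)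
  obtain ⟨K₂, hK₂⟩ := exists_pow_lt_of_lt_one hmn (show (1 / 2 : ℝ) < 1 by norm_num)
  obtain ⟨k, hk, hgood⟩ := hg hgAB hd C σ hσ0 hσ1 (κ / 8) (by positivity) (max K (max K₂ K₃))
  have hkK : K ≤ k := (le_max_left _ _).trans hk
  have hkK2 : K₂ ≤ k := ((le_max_left _ _).trans (le_max_right _ _)).trans hk
  have hkK3 : K₃ ≤ k := ((le_max_right _ _).trans (le_max_right _ _)).trans hk
  have hflat := hK₃ k hkK3
  refine ⟨k, hkK, fun P₁ P₂ b w a o hP₁ hP₂ b1 bw wa ao o1 => ?_⟩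
  obtain ⟨m1, hm1, e1, he1, H1⟩ := hgood P₁ b w o hP₁.1 hP₁.2.1 hP₁.2.2 b1 bw (wa.trans ao) o1
  obtain ⟨m2, hm2, e2, he2, H2⟩ := hgood P₂ b w o hP₂.1 hP₂.2.1 hP₂.2.2 b1 bw (wa.trans ao) o1
  obtain ⟨r, hr⟩ : ∃ r : ℝ, r = (1 / 2) ^ k := ⟨_, rfl⟩
  have hr0 : 0 < r := by rw [hr]; positivity
  have hrlt : r < min ((g - A) / Cw) ((B' - g) / Cw) := by
    rw [hr]
    exact lt_of_le_of_lt (pow_le_pow_of_le_one (by norm_num) (by norm_num) hkK2) hK₂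
  have hCA : Cw * r < g - A := by
    have h3 := hrlt.trans_le (min_le_left _ _)
    rw [lt_div_iff₀ hCw0] at h3
    linarith
  have hCB : Cw * r < B' - g := by
    have h3 := hrlt.trans_le (min_le_right _ _)
    rw [lt_div_iff₀ hCw0] at h3
    linarith
  have hlr : (lagE C d k : ℝ) = ((C : ℝ) + 7 * d + 10) * r := by
    unfold lagE
    push_cast
    rw [hr]
  have hCr : (0 : ℝ) ≤ C * r := by positivity
  have hdr : (0 : ℝ) ≤ d * r := by positivity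
  have hCwr : Cw * r = 2 * (C * r) + 7 * (d * r) + 10 * r := by
    rw [hCw]
    ring
  have hlr' : (lagE C d k : ℝ) = C * r + 7 * (d * r) + 10 * r := by
    rw [hlr]
    ring
  rw [← hr] at b1 o1 H1 H2 hflat ⊢
  obtain ⟨wl, hwl⟩ : ∃ q : ℚ, q = w + lagE C d k := ⟨_, rfl⟩
  obtain ⟨al, hal⟩ : ∃ q : ℚ, q = a + lagE C d k := ⟨_, rfl⟩
  obtain ⟨ol, hol⟩ : ∃ q : ℚ, q = o + lagE C d k := ⟨_, rfl⟩
  rw [← hwl] at H1 H2 ⊢
  rw [← hol] at H1 H2 ⊢
  rw [← hal]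
  have hwl' : (wl : ℝ) = w + (C * r + 7 * (d * r) + 10 * r) := by
    rw [hwl]
    push_cast
    rw [hlr']
  have hal' : (al : ℝ) = a + (C * r + 7 * (d * r) + 10 * r) := by
    rw [hal]
    push_cast
    rw [hlr']
  have hol' : (ol : ℝ) = o + (C * r + 7 * (d * r) + 10 * r) := by
    rw [hol]
    push_cast
    rw [hlr']
  have bw' : (b : ℝ) ≤ w := by exact_mod_cast bw
  have wa' : (w : ℝ) ≤ a := by exact_mod_cast wa
  have ao' : (a : ℝ) ≤ o := by exact_mod_cast ao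
  have hAb : A ≤ b := by linarith
  have hoB : (ol : ℝ) ≤ B' := by linarith
  -- flatness in the whole interval
  have hfl : ∀ i < d, ∀ v v' : ℝ, (b : ℝ) ≤ v → v ≤ ol → (b : ℝ) ≤ v' → v' ≤ ol →
      |(sn i v - v) - (sn i v' - v')| ≤ 2 * φ * r := by
    intro i hi v v' v1 v2 v3 v4
    have e1 := abs_le.1 (hflat i hi v (by rw [abs_le]; constructor <;> linarith))
    have e2 := abs_le.1 (hflat i hi v' (by rw [abs_le]; constructor <;> linarith))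
    rw [abs_le]
    constructor <;> linarith [e1.1, e1.2, e2.1, e2.2]
  have hts : ∀ (o' : ℚ), b ≤ o' → (o' : ℝ) ≤ ol →
      Few0 S' fp (vg ((o' : ℝ) + sh)) yW (Qt.pi fun i : Fin d => qJet m
        ((range (i : ℕ)).image c) (c i) 0 ((b : ℝ) + sh) (sn i b)
        (sn i o' - ((i : ℕ) + 1) * (2 * (2 * φ * r) + φ * r))) := by
    intro o' ho1 ho2
    have ho1' : (b : ℝ) ≤ o' := by exact_mod_cast ho1
    refine few_tQt hpos' (few_pi hpos' fun i => Few0.few hpos' ?_)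
    exact hts0 htm' hpos' hW' hf hy hAb ho1 (ho2.trans hoB) (by positivity) (by positivity)
      (fun i hi v v1 v2 => hfl i hi v o' v1 (v2.trans ho2) ho1' ho2) i.2 le_rfl
  obtain ⟨e3, he3, H3⟩ := (hts ol (by
    have : (b : ℝ) ≤ ol := by linarith
    exact_mod_cast this) le_rfl).mx hpos' (κ / 8 * r) (by positivity)
  obtain ⟨e4, he4, H4⟩ := (hts al (by
    have : (b : ℝ) ≤ al := by linarith
    exact_mod_cast this) (by linarith)).mx hpos' (κ / 8 * r) (by positivity)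
  obtain ⟨k₂, hk₂, l1, l2, l3⟩ : ∃ k₂ : ℝ, 0 < k₂ ∧ k₂ ≤ m1 ∧ k₂ ≤ m2 ∧ k₂ ≤ κ / 8 * r / 2 :=
    ⟨min m1 (min m2 (κ / 8 * r / 2)), by positivity, min_le_left _ _,
      (min_le_right _ _).trans (min_le_left _ _), (min_le_right _ _).trans (min_le_right _ _)⟩
  obtain ⟨e₀, he₀, n1, n2, n3, n4⟩ : ∃ e₀ : ℝ, 0 < e₀ ∧ e₀ ≤ e1 ∧ e₀ ≤ e2 ∧ e₀ ≤ e3 ∧
      e₀ ≤ e4 :=
    ⟨min e1 (min e2 (min e3 e4)), by positivity, min_le_left _ _,
      (min_le_right _ _).trans (min_le_left _ _),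
      (min_le_right _ _).trans ((min_le_right _ _).trans (min_le_left _ _)),
      (min_le_right _ _).trans ((min_le_right _ _).trans (min_le_right _ _))⟩
  refine ⟨k₂, hk₂, e₀, he₀, fun D => ?_⟩
  obtain ⟨C₁, hlaw⟩ := tlo_law D d
  refine ⟨C₁, ?_⟩
  -- the complexity
  obtain ⟨Kp, hKD, hK1, hK2, hK3, hK4⟩ : ∃ Kp : ℕ, D ≤ Kp ∧ (∀ i : Fin d, |(P₁ i : ℝ)| + 3 ≤ Kp) ∧
      (∀ i : Fin d, |(P₂ i : ℝ)| + 3 ≤ Kp) ∧
      (∀ i : Fin d, |sn i ol - ((i : ℕ) + 1) * (2 * (2 * φ * r) + φ * r)| + 3 ≤ Kp) ∧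
      (∀ i : Fin d, |sn i al - ((i : ℕ) + 1) * (2 * (2 * φ * r) + φ * r)| + 3 ≤ Kp) := by
    obtain ⟨Kp, hKp⟩ := exists_nat_ge ((D : ℝ) + ∑ i : Fin d, (|(P₁ i : ℝ)| + 3) +
      ∑ i : Fin d, (|(P₂ i : ℝ)| + 3) +
      ∑ i : Fin d, (|sn i ol - ((i : ℕ) + 1) * (2 * (2 * φ * r) + φ * r)| + 3) +
      ∑ i : Fin d, (|sn i al - ((i : ℕ) + 1) * (2 * (2 * φ * r) + φ * r)| + 3))
    have s0 : ∀ f : Fin d → ℝ, (0 : ℝ) ≤ ∑ i : Fin d, (|f i| + 3) := fun f =>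
      Finset.sum_nonneg fun i _ => by positivity
    have s1 : ∀ (f : Fin d → ℝ) (i : Fin d), |f i| + 3 ≤ ∑ i : Fin d, (|f i| + 3) := fun f i =>
      Finset.single_le_sum (f := fun i => |f i| + 3) (fun i _ => by positivity)
        (Finset.mem_univ i)
    have a1 := s0 (fun i => (P₁ i : ℝ))
    have a2 := s0 (fun i => (P₂ i : ℝ))
    have a3 := s0 (fun i => sn i ol - ((i : ℕ) + 1) * (2 * (2 * φ * r) + φ * r))
    have a4 := s0 (fun i => sn i al - ((i : ℕ) + 1) * (2 * (2 * φ * r) + φ * r))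
    have hD0 : (0 : ℝ) ≤ D := Nat.cast_nonneg D
    refine ⟨Kp, ?_, fun i => ?_, fun i => ?_, fun i => ?_, fun i => ?_⟩
    · have : (D : ℝ) ≤ Kp := by linarith
      exact_mod_cast this
    · have := s1 (fun i => (P₁ i : ℝ)) i
      linarith
    · have := s1 (fun i => (P₂ i : ℝ)) i
      linarith
    · have := s1 (fun i => sn i ol - ((i : ℕ) + 1) * (2 * (2 * φ * r) + φ * r)) i
      linarith
    · have := s1 (fun i => sn i al - ((i : ℕ) + 1) * (2 * (2 * φ * r) + φ * r)) i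
      linarith
  obtain ⟨u₁, rd, hrd, hch⟩ := hW'.ch al (by linarith) (by linarith)
  obtain ⟨u₂, rd₂, hrd₂, hch₂⟩ := hW'.ch wl (by linarith) (by linarith)
  have hfulc := hch.ful (φ * r) (by positivity)
  have htmc := tm_cls htm' (show 0 < κ / 8 * r by positivity)
  have hmx := mx_ex hpos' (hη' ol (by linarith) (by linarith)) k₂ hk₂
  obtain ⟨J₁, hJ₁⟩ := exists_nat_ge (24 * d / (κ / 4 * r))
  refine Bas.mono (max 1 J₁) ((((H1 Kp).and (H2 Kp)).and ((H3 Kp).and (H4 Kp))).and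
    ((hfulc.and htmc).and (hmx.and (pos_bas hpos')))) ?_
  rintro J hJ F A' ⟨⟨⟨H1, H2⟩, H3, H4⟩, ⟨H5, H6⟩, ⟨V₂, z2, hz2⟩, hA⟩ s gx e M Q n qe V V' v vL v'
    G₀ G₁ G₂ H₀ H₁' H₂' δ hv hv' N I hS'
  have hcl := isLaw_cond F.isLaw hA
  have hJ1 : 1 ≤ J := (le_max_left _ _).trans hJ
  have hJR : (J₁ : ℝ) ≤ J := by exact_mod_cast (le_max_right _ _).trans hJ
  have hJ0 : (0 : ℝ) ≤ J := Nat.cast_nonneg J
  have hidd : (fun J F => ptr F J : ∀ (J : ℕ) (F : Fam m J), F.Ω → PtT F) J F = ptr F J := rfl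
  -- the closed part of the record
  have hcv : Cl2 (ptr F J) (vg ((wl : ℝ) + sh) J F) A' v := by
    have := hv.1
    rw [hfp] at this
    exact this
  have hcv' : Cl2 (ptr F J) (vg ((al : ℝ) + sh) J F) A' v' := by
    have := hv'.1
    rw [hfp] at this
    exact this
  have hzo : Cl2 (ptr F J) (vg ((ol : ℝ) + sh) J F) A' (zcF F d v v' G₀ G₁ G₂) :=
    zc_cl2 I rfl rfl rfl (by linarith) (by linarith) (by linarith) (by linarith) hcv hcv'
  have hza : Cl2 (ptr F J) (vg ((al : ℝ) + sh) J F) A' (zcF F d v v' G₀ G₁ G₂) :=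
    zc_cl2 I rfl rfl rfl (by linarith) (by linarith) le_rfl (by linarith) hcv hcv'
  obtain ⟨⟨za, hza1⟩, zb, hzb⟩ := hza
  have hj0 : ∀ ω, A' ω → ∀ i < d, |ojet F (c i) 0 (G₀ (ptr F J ω) i) ω| ≤ 2 ^ J := by
    intro ω hω i hi
    rw [ojet_zero]
    refine (I.ch.pos ω hω i hi).trans ?_
    have h3 : (1 : ℝ) ≤ 2 ^ gx i := one_le_pow₀ (by norm_num)
    have h4 : (1 : ℝ) ≤ 2 ^ J := one_le_pow₀ (by norm_num)
    rw [div_le_iff₀ (by positivity)]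
    nlinarith
  have hgx : ∀ e', e₀ ≤ e' → ∀ i < d, (sn i b - e') * J ≤ gx i := by
    intro e' he' i hi
    refine le_trans (mul_le_mul_of_nonneg_right (by linarith) hJ0) (N.hgx i hi)
  -- the quantities
  have U1 := pi_jet I.ch I.cl0 (b := (b : ℝ) + sh) (e₀ := e1) (sn := fun i => sn i b) (K := Kp)
    (j := 1) (N := fun i => (P₁ i : ℝ)) hJ1 rfl (hgx e1 n1) hS'.jet hKD hK1
  have U2 := pi_jet I.ch I.cl0 (b := (b : ℝ) + sh) (e₀ := e2) (sn := fun i => sn i b) (K := Kp)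
    (j := 1) (N := fun i => (P₂ i : ℝ)) hJ1 rfl (hgx e2 n2) hS'.jet hKD hK2
  have U3 := pi_jet I.ch I.cl0 (b := (b : ℝ) + sh) (e₀ := e3) (sn := fun i => sn i b) (K := Kp)
    (j := 0) (N := fun i : Fin d => sn i ol - ((i : ℕ) + 1) * (2 * (2 * φ * r) + φ * r)) hJ1 rfl
    (hgx e3 n3) hj0 hKD hK3
  have U4 := pi_jet I.ch I.cl0 (b := (b : ℝ) + sh) (e₀ := e4) (sn := fun i => sn i b) (K := Kp)
    (j := 0) (N := fun i : Fin d => sn i al - ((i : ℕ) + 1) * (2 * (2 * φ * r) + φ * r)) hJ1 rfl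
    (hgx e4 n4) hj0 hKD hK4
  have R3 := H3 V₂ z2 (hz2.mono l3) _ U3
  have R4 := H4 V' v' (hv'.mono l3) _ U4
  have det2 : Det (Pool.Agent.H49.Ent.cond F.p A' True) (fun ω => ((v ω, z2 ω), yW J F ω)) z2 :=
    fun ω ω' _ _ hh => by
      simp only [Prod.mk.injEq] at hh
      exact hh.1.2
  have det0 : Det (Pool.Agent.H49.Ent.cond F.p A' True) (fun ω => ((v ω, z2 ω), yW J F ω))
      (fun _ => ()) := fun _ _ _ _ _ => rfl
  have R1 := H1 V v V₂ z2 (hv.mono l1) (hz2.mono l1) _ U1 V₂ Unit z2 (fun _ => ()) det2 det0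
  have R2 := H2 V v V₂ z2 (hv.mono l2) (hz2.mono l2) _ U2 V₂ Unit z2 (fun _ => ()) det2 det0
  rw [hyW] at R1 R2 R3 R4
  have strip : ∀ {T : Type} (W : F.Ω → T),
      CH (Pool.Agent.H49.Ent.cond F.p A' True) z2 (fun ω => ((), W ω)) =
      CH (Pool.Agent.H49.Ent.cond F.p A' True) z2 W := fun W =>
    CH_congr hcl.nonneg (fun _ _ _ _ h => (Prod.ext_iff.mp h).1)
      (fun _ _ _ _ h => (Prod.ext_iff.mp h).1) (fun _ _ _ _ h => (Prod.ext_iff.mp h).2)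
      (fun _ _ _ _ h => Prod.ext rfl h)
  have strip2 : ∀ {T T' : Type} (U : F.Ω → T') (W : F.Ω → T),
      CH (Pool.Agent.H49.Ent.cond F.p A' True) z2 (fun ω => (U ω, ((), W ω))) =
      CH (Pool.Agent.H49.Ent.cond F.p A' True) z2 (fun ω => (U ω, W ω)) := fun U W =>
    CH_congr hcl.nonneg (fun _ _ _ _ h => (Prod.ext_iff.mp h).1)
      (fun _ _ _ _ h => (Prod.ext_iff.mp h).1) (fun _ _ _ _ h => by
        simp only [Prod.mk.injEq] at h ⊢
        exact ⟨h.1, h.2.2⟩)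
      (fun _ _ _ _ h => by
        simp only [Prod.mk.injEq] at h ⊢
        exact ⟨h.1, trivial, h.2⟩)
  rw [strip, strip2] at R1 R2
  -- the fullness
  have R5 : ∀ i < d, (((1 - sn i al) - φ * r) * Real.log 2 * J) ≤
      CH (Pool.Agent.H49.Ent.cond F.p A' True)
      (fun ω => F.X J ω (c i)) (fun ω => ((fun l : Fin i => F.X J ω (c l)),
        (zcF F d v v' G₀ G₁ G₂ ω, F.W ω))) := by
    intro i hi
    have h3 := H5 _ za zb (fun ω hω => by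
      rw [← hza1 ω hω, hzb ω hω]
      rfl) i (Nat.zero_le _) hi
    refine h3.trans (le_of_eq ?_)
    refine CH_congr hcl.nonneg (fun _ _ _ _ h => (Prod.ext_iff.mp h).1)
      (fun _ _ _ _ h => (Prod.ext_iff.mp h).1) ?_ ?_
    · intro ω ω' hω hω' hh
      have h4 := hzb ω (of_cond_pos hω)
      have h5 := hzb ω' (of_cond_pos hω')
      unfold vg at h4 h5
      simp only [Prod.mk.injEq] at hh ⊢
      rw [h4, h5]
      exact hh
    · intro ω ω' hω hω' hh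
      have h4 := hzb ω (of_cond_pos hω)
      have h5 := hzb ω' (of_cond_pos hω')
      unfold vg at h4 h5
      simp only [Prod.mk.injEq] at hh ⊢
      rw [h4, h5] at hh
      exact hh
  have hw1 : (wl : ℝ) + sh ≤ 1 := by linarith
  have hw0 : 0 ≤ (wl : ℝ) + sh := hch₂.w0
  have hφr : φ * r ≤ ε / 10 * r := mul_le_mul_of_nonneg_right hφε hr0.le
  have hεr : 0 < ε * r := by positivity
  have hφr0 : 0 < φ * r := by positivity
  have hdig : ∀ i : Fin d, ((i : ℕ) + 1 : ℝ) * (2 * (2 * φ * r) + φ * r) ≤ ε * r := by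
    intro i
    have h3 : ((i : ℕ) : ℝ) + 1 ≤ d + 1 := by
      have : ((i : ℕ) : ℝ) ≤ d := by exact_mod_cast i.2.le
      linarith
    have h4 := mul_le_mul_of_nonneg_right h3 hφr0.le
    have h5 : (d + 1 : ℝ) * (φ * r) = ε / 10 * r := by
      rw [← mul_assoc, mul_comm (d + 1 : ℝ) φ, hφd]
    linarith
  have hfin := hlaw (κ := κ / 8 * r) (ε := ε * r) (φ := 2 * φ * r) (δ := δ)
    (P₁ := fun i => (P₁ i : ℝ)) (P₂ := fun i => (P₂ i : ℝ)) (z2 := z2)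
    (No := fun i : Fin d => sn i ol - ((i : ℕ) + 1) * (2 * (2 * φ * r) + φ * r))
    (Na := fun i : Fin d => sn i al - ((i : ℕ) + 1) * (2 * (2 * φ * r) + φ * r))
    hA hch.inj (by linarith) hw0 hw1 (by positivity) hεr (by linarith)
    (fun i hi => hfl i hi al wl (by linarith) (by linarith) (by linarith) (by linarith))
    (fun i hi => hfl i hi ol wl (by linarith) le_rfl (by linarith) (by linarith))
    (fun i => by linarith [hdig i]) (fun i => by linarith [hdig i]) N I hS'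
    (fun i hi => by
      refine le_trans ?_ (R5 i hi)
      have h3 : 0 ≤ Real.log 2 * J := mul_nonneg (Real.log_nonneg one_le_two) hJ0
      have h4 : ((1 - sn i al) - 2 * φ * r) * (Real.log 2 * J) ≤
          ((1 - sn i al) - φ * r) * (Real.log 2 * J) :=
        mul_le_mul_of_nonneg_right (by linarith) h3
      linarith)
    H6 R1 R2 R3 (by
      refine (hz2.2 _ _ (by rw [hfp]; exact hzo)).trans ?_
      exact mul_le_mul_of_nonneg_right (by linarith [show 0 < κ / 8 * r by positivity]) hJ0) R4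
  -- the errors
  have hle : 4 * (κ / 8 * r) * J + 6 * (d * (5 * (ε * r) * J + 4)) + d * (5 * (ε * r) * J) ≤
      κ * r * J := by
    have h3 : 24 * d ≤ κ / 4 * r * J := by
      have h4 := hJ₁.trans hJR
      rw [div_le_iff₀ (by positivity)] at h4
      linarith
    have h5 : (d : ℝ) * (ε * r * J) ≤ κ / 140 * r * J := by
      have h6 : ε * d ≤ κ / 140 := by
        have : ε * (d : ℝ) ≤ ε * (d + 1) := mul_le_mul_of_nonneg_left (by linarith) hε0.le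
        linarith
      have h7 := mul_le_mul_of_nonneg_right (mul_le_mul_of_nonneg_right h6 hr0.le) hJ0
      linarith
    have h8 : 0 ≤ κ * r * J := by positivity
    linarith
  exact ⟨by linarith [hfin.Tfull], by linarith [hfin.afew], by linarith [hfin.fr],
    by linarith [hfin.frT], by linarith [hfin.full]⟩

end Pool.LA91
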